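import Mathlib

/-!
# Internal versions of the definitions, used in the proofs
-/

open scoped TensorProduct

namespace Pool.Agent.Work.MP_7f0ddb_an.H59

/-- The Rokhlin property of an action `σ` of a finite group `K` on a unital C*-algebra `D`. -/
def HasRokhlinProperty {K D : Type} [Group K] [Fintype K] [CStarAlgebra D]
    (σ : K →* (D ≃⋆ₐ[ℂ] D)) : Prop :=
  ∀ (F : Finset D) (ε : ℝ), 0 < ε → ∃ e : K → D,
    (∀ k, IsStarProjection (e k)) ∧ (∀ k l, k ≠ l → e k * e l = 0) ∧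
    (∀ k l, ‖σ k (e l) - e (k * l)‖ < ε) ∧
    (∀ k, ∀ a ∈ F, ‖e k * a - a * e k‖ < ε) ∧ ∑ k, e k = 1

/-- A unital C*-algebra `D` is stably finite if every isometry in every matrix algebra `M_n(D)`
is a unitary. -/
def IsStablyFinite (D : Type) [CStarAlgebra D] : Prop :=
  ∀ (n : ℕ) (x : Matrix (Fin n) (Fin n) D), star x * x = 1 → x * star x = 1

/-- The Hilbert space tensor product of two Hilbert spaces: the completion of the algebraic tensor
product for the inner product `⟨x ⊗ y, x' ⊗ y'⟩ = ⟨x, x'⟩ ⟨y, y'⟩`. -/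
abbrev HilbertTensor (H K : Type) [NormedAddCommGroup H] [InnerProductSpace ℂ H]
    [NormedAddCommGroup K] [InnerProductSpace ℂ K] : Type :=
  UniformSpace.Completion (H ⊗[ℂ] K)

/-- The representation `ρ` of `D` on the Hilbert space tensor product of `H` and `K` is spatial
for the representations `π` of `A` on `H` and `σ` of `B` on `K`:
`ρ (i a * j b) = π a ⊗ σ b`. -/
def IsSpatial {A B D H K : Type} [CStarAlgebra A] [CStarAlgebra B] [CStarAlgebra D]
    [NormedAddCommGroup H] [InnerProductSpace ℂ H] [CompleteSpace H]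
    [NormedAddCommGroup K] [InnerProductSpace ℂ K] [CompleteSpace K]
    (i : A →⋆ₐ[ℂ] D) (j : B →⋆ₐ[ℂ] D) (π : A →⋆ₐ[ℂ] (H →L[ℂ] H)) (σ : B →⋆ₐ[ℂ] (K →L[ℂ] K))
    (ρ : D →⋆ₐ[ℂ] (HilbertTensor H K →L[ℂ] HilbertTensor H K)) : Prop :=
  ∀ (a : A) (b : B) (x : H) (y : K),
    ρ (i a * j b) ((x ⊗ₜ[ℂ] y : H ⊗[ℂ] K) : HilbertTensor H K) =
      ((π a x ⊗ₜ[ℂ] σ b y : H ⊗[ℂ] K) : HilbertTensor H K)

/-- There are faithful representations `π` of `A` on `H`, `σ` of `B` on `K` and `ρ` of `D` on the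
Hilbert space tensor product of `H` and `K` such that `ρ (i a * j b) = π a ⊗ σ b`. -/
def HasSpatialRepresentation (H K : Type) [NormedAddCommGroup H] [InnerProductSpace ℂ H]
    [CompleteSpace H] [NormedAddCommGroup K] [InnerProductSpace ℂ K] [CompleteSpace K]
    {A B D : Type} [CStarAlgebra A] [CStarAlgebra B] [CStarAlgebra D]
    (i : A →⋆ₐ[ℂ] D) (j : B →⋆ₐ[ℂ] D) : Prop :=
  ∃ (π : A →⋆ₐ[ℂ] (H →L[ℂ] H)) (σ : B →⋆ₐ[ℂ] (K →L[ℂ] K))
    (ρ : D →⋆ₐ[ℂ] (HilbertTensor H K →L[ℂ] HilbertTensor H K)),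
    Function.Injective π ∧ Function.Injective σ ∧ Function.Injective ρ ∧ IsSpatial i j π σ ρ

/-- The unital C*-algebra `D`, with the unital *-homomorphisms `i : A → D` and `j : B → D`, is the
minimal (spatial) tensor product of `A` and `B`, `i a * j b` being the elementary tensor `a ⊗ b`:
the elementary tensors span a dense subspace of `D`, and for some Hilbert spaces `H` and `K` there
are faithful representations `π` of `A` on `H`, `σ` of `B` on `K` and `ρ` of `D` on the Hilbert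
space tensor product of `H` and `K` such that `ρ (a ⊗ b) = π a ⊗ σ b`. -/
def IsMinimalTensorProduct {A B D : Type} [CStarAlgebra A] [CStarAlgebra B] [CStarAlgebra D]
    (i : A →⋆ₐ[ℂ] D) (j : B →⋆ₐ[ℂ] D) : Prop :=
  Dense (Submodule.span ℂ {d : D | ∃ a b, d = i a * j b} : Set D) ∧
  ∃ (H K : Type) (_ : NormedAddCommGroup H) (_ : InnerProductSpace ℂ H) (_ : CompleteSpace H)
    (_ : NormedAddCommGroup K) (_ : InnerProductSpace ℂ K) (_ : CompleteSpace K),
    HasSpatialRepresentation H K i j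

/-- `γ : G × H → Aut(D)` is the tensor product of the actions `α : G → Aut(A)` and
`β : H → Aut(B)`: `γ_(g,h) (a ⊗ b) = α_g a ⊗ β_h b`. -/
def IsTensorProductAction {A B D G H : Type} [CStarAlgebra A] [CStarAlgebra B] [CStarAlgebra D]
    [Group G] [Group H] (i : A →⋆ₐ[ℂ] D) (j : B →⋆ₐ[ℂ] D) (α : G →* (A ≃⋆ₐ[ℂ] A))
    (β : H →* (B ≃⋆ₐ[ℂ] B)) (γ : G × H →* (D ≃⋆ₐ[ℂ] D)) : Prop :=
  ∀ g h a b, γ (g, h) (i a * j b) = i (α g a) * j (β h b)

end Pool.Agent.Work.MP_7f0ddb_an.H59
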