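import Pool.Agent.Work.MP_7f0ddb_an.H59.TensorSys

/-!
# The two concrete systems: Bunce–Deddens algebra of type `3^∞` and the CAR algebra
-/

open scoped InnerProductSpace TensorProduct

namespace Pool.Agent.Work.MP_7f0ddb_an.H59

/-! ### The group `ℤ × ℤ(3^∞)` -/

/-- The group of `3`-power roots of unity. -/
def D3 : Subgroup Circle where
  carrier := {z | ∃ n : ℕ, z ^ 3 ^ n = 1}
  mul_mem' := by
    rintro z w ⟨n, hn⟩ ⟨m, hm⟩
    refine ⟨n + m, ?_⟩
    rw [mul_pow, pow_add, pow_mul, hn, one_pow, mul_comm (3 ^ n) (3 ^ m), pow_mul, hm, one_pow,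
      mul_one]
  one_mem' := ⟨0, one_pow _⟩
  inv_mem' := by
    rintro z ⟨n, hn⟩
    exact ⟨n, by rw [inv_pow, hn, inv_one]⟩

theorem D3_pow (d : D3) : ∃ n : ℕ, (d : Circle) ^ 3 ^ n = 1 := d.2

/-- `ℤ × ℤ(3^∞)`. -/
abbrev GA : Type := Multiplicative ℤ × D3

/-- The bicharacter `ω((k, d), (l, e)) = d^l`. -/
noncomputable def ωA : GA →* GA →* Circle where
  toFun p :=
    { toFun := fun q => (p.2 : Circle) ^ (Multiplicative.toAdd q.1)
      map_one' := by simp
      map_mul' := fun q r => by rw [Prod.fst_mul, toAdd_mul, zpow_add] }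
  map_one' := by ext q; simp
  map_mul' p r := by
    ext q
    simp only [Prod.snd_mul, Subgroup.coe_mul, MonoidHom.coe_mk, OneHom.coe_mk, mul_zpow,
      MonoidHom.mul_apply]

theorem ωA_apply (p q : GA) : ωA p q = (p.2 : Circle) ^ (Multiplicative.toAdd q.1) := rfl

/-- The primitive `N`-th root of unity. -/
theorem exists_root (N : ℕ) [NeZero N] :
    ∃ z : Circle, z ^ N = 1 ∧ ∀ k : ℤ, z ^ k = 1 → (N : ℤ) ∣ k := by
  refine ⟨ZMod.toCircle (1 : ZMod N), ?_, fun k hk => ?_⟩
  · rw [← AddChar.map_nsmul_eq_pow]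
    simp
  · rw [← AddChar.map_zsmul_eq_zpow] at hk
    have h1 : ZMod.toCircle (k • (1 : ZMod N)) = ZMod.toCircle (0 : ZMod N) := by
      rw [hk, AddChar.map_zero_eq_one]
    have h2 := ZMod.injective_toCircle h1
    rw [zsmul_eq_mul, mul_one] at h2
    exact (ZMod.intCast_zmod_eq_zero_iff_dvd k N).1 h2

/-- The Bunce–Deddens system. -/
noncomputable def sysA : TwSys GA (L2 GA) := regSys ωA

theorem sysA_ω : sysA.ω = ωA := rfl

theorem nondegA : sysA.Nondeg := by
  intro g hg
  by_cases hd : (g.2 : Circle) = 1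
  · have hd' : g.2 = 1 := Subtype.ext hd
    have hk : Multiplicative.toAdd g.1 ≠ 0 := fun h => hg (Prod.ext h hd')
    set k := Multiplicative.toAdd g.1 with hkdef
    set N := 3 ^ k.natAbs with hN
    have hNpos : NeZero N := ⟨by positivity⟩
    obtain ⟨z, hz, hz'⟩ := exists_root N
    refine ⟨(1, ⟨z, k.natAbs, hz⟩), ?_⟩
    rw [sysA_ω, ωA_apply, ωA_apply]
    change z ^ k ≠ (g.2 : Circle) ^ (0 : ℤ)
    rw [zpow_zero]
    intro h
    have h1 := hz' k h
    have h2 : N ≤ k.natAbs := by
      have := Int.natAbs_dvd_natAbs.2 h1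
      rw [Int.natAbs_natCast] at this
      exact Nat.le_of_dvd (Int.natAbs_pos.2 hk) this
    have h3 : k.natAbs < N := Nat.lt_pow_self (by norm_num)
    omega
  · refine ⟨(Multiplicative.ofAdd 1, 1), ?_⟩
    rw [sysA_ω, ωA_apply, ωA_apply]
    change ((1 : D3) : Circle) ^ (Multiplicative.toAdd g.1) ≠ (g.2 : Circle) ^ (1 : ℤ)
    rw [OneMemClass.coe_one, one_zpow, zpow_one]
    exact Ne.symm hd

/-! ### Signs -/

/-- The sign `(-1)^z`. -/
noncomputable def sgn (z : ZMod 2) : Circle := ZMod.toCircle z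

theorem sgn_add (z w : ZMod 2) : sgn (z + w) = sgn z * sgn w := AddChar.map_add_eq_mul _ _ _

theorem sgn_zero : sgn 0 = 1 := AddChar.map_zero_eq_one _

theorem sgn_mul_self (z : ZMod 2) : sgn z * sgn z = 1 := by
  rw [← sgn_add, CharTwo.add_self_eq_zero, sgn_zero]

theorem sgn_one_ne : sgn 1 ≠ 1 := by
  rw [← sgn_zero]
  intro h
  exact one_ne_zero (ZMod.injective_toCircle h)

theorem coe_sgn_one : (sgn 1 : ℂ) = -1 := by
  have h : (sgn 1 : ℂ) * sgn 1 = 1 := by
    rw [← Circle.coe_mul, sgn_mul_self, Circle.coe_one]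
  rcases mul_self_eq_one_iff.1 h with h1 | h1
  · exact absurd (Circle.ext (by simpa using h1)) sgn_one_ne
  · exact h1

theorem sgn_eq_one_iff {z : ZMod 2} : sgn z = 1 ↔ z = 0 := by
  rw [← sgn_zero]
  exact ZMod.injective_toCircle.eq_iff

/-! ### The group of the CAR algebra -/

/-- Finitely supported functions to `ℤ/2`. -/
abbrev P : Type := (ℕ × Bool) →₀ ZMod 2

/-- The pairing. -/
noncomputable def pair (b a : P) : ZMod 2 := b.sum fun i x => x * a i

theorem pair_add_left (b b' a : P) : pair (b + b') a = pair b a + pair b' a :=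
  Finsupp.sum_add_index' (by simp) (by intros; ring)

theorem pair_add_right (b a a' : P) : pair b (a + a') = pair b a + pair b a' := by
  rw [pair, pair, pair, ← Finsupp.sum_add]
  refine Finsupp.sum_congr fun i _ => ?_
  rw [Finsupp.add_apply, mul_add]

theorem pair_zero_left (a : P) : pair 0 a = 0 := Finsupp.sum_zero_index

theorem pair_zero_right (b : P) : pair b 0 = 0 := by simp [pair]

theorem pair_single_left (i : ℕ × Bool) (x : ZMod 2) (a : P) :
    pair (Finsupp.single i x) a = x * a i := by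
  rw [pair, Finsupp.sum_single_index]
  rw [zero_mul]

theorem pair_single_right (i : ℕ × Bool) (b : P) :
    pair b (Finsupp.single i 1) = b i := by
  classical
  rw [pair, Finsupp.sum, Finset.sum_eq_single i]
  · simp
  · intro j _ hj
    rw [Finsupp.single_apply, if_neg hj.symm, mul_zero]
  · intro h
    rw [Finsupp.notMem_support_iff.1 h, zero_mul]

/-- The group of the CAR algebra. -/
abbrev GB : Type := Multiplicative P × Multiplicative P

/-- The bicharacter `ω((a, b), (a', b')) = (-1)^{b · a'}`. -/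
noncomputable def ωB : GB →* GB →* Circle where
  toFun p :=
    { toFun := fun q => sgn (pair (Multiplicative.toAdd p.2) (Multiplicative.toAdd q.1))
      map_one' := by
        rw [Prod.fst_one, toAdd_one, pair_zero_right, sgn_zero]
      map_mul' := fun q r => by
        rw [Prod.fst_mul, toAdd_mul, pair_add_right, sgn_add] }
  map_one' := by
    ext q
    simp [pair_zero_left, sgn_zero]
  map_mul' p r := by
    refine MonoidHom.ext fun q => ?_
    change sgn (pair (Multiplicative.toAdd (p * r).2) (Multiplicative.toAdd q.1)) =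
      sgn (pair (Multiplicative.toAdd p.2) (Multiplicative.toAdd q.1)) *
      sgn (pair (Multiplicative.toAdd r.2) (Multiplicative.toAdd q.1))
    rw [Prod.snd_mul, toAdd_mul, pair_add_left, sgn_add]

theorem ωB_apply (p q : GB) :
    ωB p q = sgn (pair (Multiplicative.toAdd p.2) (Multiplicative.toAdd q.1)) := rfl

/-- The CAR algebra system. -/
noncomputable def sysB : TwSys GB (L2 GB) := regSys ωB

theorem sysB_ω : sysB.ω = ωB := rfl

/-- The group elements of `X_i` and `Z_i`. -/
noncomputable def gX (i : ℕ × Bool) : GB := (Multiplicative.ofAdd (Finsupp.single i 1), 1)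

/-- The group elements of `X_i` and `Z_i`. -/
noncomputable def gZ (i : ℕ × Bool) : GB := (1, Multiplicative.ofAdd (Finsupp.single i 1))

theorem ωB_gX_left (i : ℕ × Bool) (p : GB) : ωB (gX i) p = 1 := by
  rw [ωB_apply]
  change sgn (pair 0 _) = 1
  rw [pair_zero_left, sgn_zero]

theorem ωB_gX_right (i : ℕ × Bool) (p : GB) :
    ωB p (gX i) = sgn (Multiplicative.toAdd p.2 i) := by
  rw [ωB_apply]
  change sgn (pair _ (Finsupp.single i 1)) = _
  rw [pair_single_right]

theorem ωB_gZ_right (i : ℕ × Bool) (p : GB) : ωB p (gZ i) = 1 := by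
  rw [ωB_apply]
  change sgn (pair _ 0) = 1
  rw [pair_zero_right, sgn_zero]

theorem ωB_gZ_left (i : ℕ × Bool) (p : GB) :
    ωB (gZ i) p = sgn (Multiplicative.toAdd p.1 i) := by
  rw [ωB_apply]
  change sgn (pair (Finsupp.single i 1) _) = _
  rw [pair_single_left, one_mul]

theorem nondegB : sysB.Nondeg := by
  intro g hg
  rw [sysB_ω]
  by_cases h1 : g.1 = 1
  · have h2 : g.2 ≠ 1 := fun h2 => hg (Prod.ext h1 h2)
    have h3 : Multiplicative.toAdd g.2 ≠ 0 := fun h => h2 (by rw [← toAdd_one] at h; exact h)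
    obtain ⟨i, hi⟩ := Finsupp.ne_iff.1 h3
    refine ⟨gX i, ?_⟩
    rw [ωB_gX_left, ωB_gX_right]
    intro h
    exact hi (sgn_eq_one_iff.1 h.symm)
  · have h3 : Multiplicative.toAdd g.1 ≠ 0 := fun h => h1 (by rw [← toAdd_one] at h; exact h)
    obtain ⟨i, hi⟩ := Finsupp.ne_iff.1 h3
    refine ⟨gZ i, ?_⟩
    rw [ωB_gZ_left, ωB_gZ_right]
    intro h
    exact hi (sgn_eq_one_iff.1 h)

/-! ### The actions -/

/-- The homomorphism from `{±1}` sending `-1` to an involution. -/
def invHom {M : Type} [Monoid M] (v : M) (hv : v * v = 1) : ℤˣ →* M where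
  toFun ε := if ε = 1 then 1 else v
  map_one' := if_pos rfl
  map_mul' ε ε' := by
    rcases Int.units_eq_one_or ε with rfl | rfl <;> rcases Int.units_eq_one_or ε' with rfl | rfl
    · simp
    · simp
    · simp
    · have h : (-1 : ℤˣ) ≠ 1 := by decide
      rw [if_neg h, hv]
      simp

theorem invHom_neg_one {M : Type} [Monoid M] (v : M) (hv : v * v = 1) :
    invHom v hv (-1) = v := by
  have h : (-1 : ℤˣ) ≠ 1 := by decide
  change (if (-1 : ℤˣ) = 1 then 1 else v) = v
  exact if_neg h

/-- The character `(k, d) ↦ (-1)^k`. -/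
noncomputable def χA : GA →* Circle where
  toFun p := sgn 1 ^ (Multiplicative.toAdd p.1)
  map_one' := by simp
  map_mul' p q := by rw [Prod.fst_mul, toAdd_mul, zpow_add]

theorem χA_mul_self : χA * χA = 1 := by
  refine MonoidHom.ext fun p => ?_
  change sgn 1 ^ (Multiplicative.toAdd p.1) * sgn 1 ^ (Multiplicative.toAdd p.1) = 1
  rw [← mul_zpow, sgn_mul_self, one_zpow]

/-- The character `(a, b) ↦ (-1)^{∑ a(i, true)}`. -/
noncomputable def χB : GB →* Circle where
  toFun p := sgn ((Multiplicative.toAdd p.1).sum fun i x => if i.2 then x else 0)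
  map_one' := by
    rw [Prod.fst_one, toAdd_one, Finsupp.sum_zero_index, sgn_zero]
  map_mul' p q := by
    rw [Prod.fst_mul, toAdd_mul, Finsupp.sum_add_index', sgn_add]
    · intro i; simp
    · intro i x y; by_cases h : i.2 = true <;> simp [h]

theorem χB_mul_self : χB * χB = 1 := by
  refine MonoidHom.ext fun p => ?_
  exact sgn_mul_self _

theorem χB_gX_false (n : ℕ) : χB (gX (n, false)) = 1 := by
  change sgn ((Finsupp.single (n, false) (1 : ZMod 2)).sum fun i x => if i.2 then x else 0) = 1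
  rw [Finsupp.sum_single_index (by simp)]
  exact sgn_zero

theorem χB_gX_true (n : ℕ) : χB (gX (n, true)) = sgn 1 := by
  change sgn ((Finsupp.single (n, true) (1 : ZMod 2)).sum fun i x => if i.2 then x else 0) = _
  rw [Finsupp.sum_single_index (by simp)]
  rfl

theorem χB_gZ (i : ℕ × Bool) : χB (gZ i) = 1 := by
  change sgn ((0 : P).sum fun i x => if i.2 then x else 0) = 1
  rw [Finsupp.sum_zero_index, sgn_zero]

/-- The unitary representations implementing the actions. -/
noncomputable def VA : ℤˣ →* unitary (L2 GA →L[ℂ] L2 GA) := diagU.comp (invHom χA χA_mul_self)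

/-- The unitary representations implementing the actions. -/
noncomputable def VB : ℤˣ →* unitary (L2 GB →L[ℂ] L2 GB) := diagU.comp (invHom χB χB_mul_self)

/-- The characters of the actions. -/
noncomputable def cA (ε : ℤˣ) (g : GA) : Circle := invHom χA χA_mul_self ε g

/-- The characters of the actions. -/
noncomputable def cB (ε : ℤˣ) (g : GB) : Circle := invHom χB χB_mul_self ε g

theorem VA_conj (ε : ℤˣ) (g : GA) :
    (VA ε : L2 GA →L[ℂ] L2 GA) * sysA.u g * star (VA ε : L2 GA →L[ℂ] L2 GA) =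
      (cA ε g : ℂ) • sysA.u g := diagU_conj ωA _ g

theorem VB_conj (ε : ℤˣ) (g : GB) :
    (VB ε : L2 GB →L[ℂ] L2 GB) * sysB.u g * star (VB ε : L2 GB →L[ℂ] L2 GB) =
      (cB ε g : ℂ) • sysB.u g := diagU_conj ωB _ g

/-- The action `α` on the Bunce–Deddens algebra. -/
noncomputable def actA : ℤˣ →* (sysA.alg ≃⋆ₐ[ℂ] sysA.alg) := sysA.action cA VA VA_conj

/-- The action `β` on the CAR algebra. -/
noncomputable def actB : ℤˣ →* (sysB.alg ≃⋆ₐ[ℂ] sysB.alg) := sysB.action cB VB VB_conj

/-- The tensor product system. -/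
noncomputable abbrev sysD : TwSys (GA × GB) (HilbertTensor (L2 GA) (L2 GB)) := sysA.tensor sysB

/-- The tensor product action. -/
noncomputable def actD : ℤˣ × ℤˣ →* (sysD.alg ≃⋆ₐ[ℂ] sysD.alg) :=
  sysD.action (fun k p => cA k.1 p.1 * cB k.2 p.2) (TwSys.tensorV VA VB)
    (TwSys.tensorV_conj VA_conj VB_conj)

theorem isTensorProductAction_actD :
    IsTensorProductAction (sysA.iHom sysB) (sysA.jHom sysB) actA actB actD :=
  TwSys.isTensorProductAction VA_conj VB_conj

end Pool.Agent.Work.MP_7f0ddb_an.H59
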