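import Mathlib

/-!
# Definitions: Rokhlin property, stable finiteness, minimal tensor products

All C*-algebras are unital; `CStarAlgebra` is Mathlib's class of unital C*-algebras.
-/

open scoped TensorProduct

namespace Pool.Agent.Work.MP_7f0ddb_an.Problem

/-! ### Homomorphisms and actions -/

/-- The unital *-homomorphisms from `A` to `B`. -/
def UHom (A B : Type) [CStarAlgebra A] [CStarAlgebra B] : Type := A →⋆ₐ[ℂ] B

/-- The value of a unital *-homomorphism. -/
def UHom.ap {A B : Type} [CStarAlgebra A] [CStarAlgebra B] (f : UHom A B) (a : A) : B :=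
  (show A →⋆ₐ[ℂ] B from f) a

/-- The *-automorphisms of the C*-algebra `D`. -/
def Aut (D : Type) [CStarAlgebra D] : Type := D ≃⋆ₐ[ℂ] D

/-- The value of a *-automorphism. -/
def Aut.ap {D : Type} [CStarAlgebra D] (φ : Aut D) (d : D) : D := (show D ≃⋆ₐ[ℂ] D from φ) d

/-- The *-automorphisms form a group under composition (Mathlib's group structure). -/
instance (D : Type) [CStarAlgebra D] : Group (Aut D) := (inferInstance : Group (D ≃⋆ₐ[ℂ] D))

/-- The actions of the group `K` on the C*-algebra `D`, i.e. the group homomorphisms from `K` to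
the group of *-automorphisms of `D`. -/
def Act (K D : Type) [Group K] [CStarAlgebra D] : Type := K →* Aut D

/-- `σ.ap k d` is `σ_k(d)`. -/
def Act.ap {K D : Type} [Group K] [CStarAlgebra D] (σ : Act K D) (k : K) (d : D) : D :=
  ((show K →* Aut D from σ) k).ap d

/-! ### The Rokhlin property and stable finiteness -/

/-- The Rokhlin property of an action `σ` of a finite group `K` on a unital C*-algebra `D`. -/
def HasRokhlinProperty {K D : Type} [Group K] [Fintype K] [CStarAlgebra D] (σ : Act K D) :
    Prop :=
  ∀ (F : Finset D) (ε : ℝ), 0 < ε → ∃ e : K → D,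
    (∀ k, IsStarProjection (e k)) ∧ (∀ k l, k ≠ l → e k * e l = 0) ∧
    (∀ k l, ‖σ.ap k (e l) - e (k * l)‖ < ε) ∧
    (∀ k, ∀ a ∈ F, ‖e k * a - a * e k‖ < ε) ∧ ∑ k, e k = 1

/-- A unital C*-algebra `D` is stably finite if every isometry in every matrix algebra `M_n(D)`
is a unitary. -/
def IsStablyFinite (D : Type) [CStarAlgebra D] : Prop :=
  ∀ (n : ℕ) (x : Matrix (Fin n) (Fin n) D), star x * x = 1 → x * star x = 1

/-! ### Hilbert spaces and their tensor product -/

/-- The algebra of bounded operators on the Hilbert space `H`. -/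
def BH (H : Type) [NormedAddCommGroup H] [InnerProductSpace ℂ H] [CompleteSpace H] : Type :=
  H →L[ℂ] H

/-- `BH H` is a C*-algebra with Mathlib's structure on `H →L[ℂ] H`. -/
noncomputable instance (H : Type) [NormedAddCommGroup H] [InnerProductSpace ℂ H]
    [CompleteSpace H] : CStarAlgebra (BH H) := (inferInstance : CStarAlgebra (H →L[ℂ] H))

/-- The value of an operator at a vector. -/
def BH.ap {H : Type} [NormedAddCommGroup H] [InnerProductSpace ℂ H] [CompleteSpace H]
    (T : BH H) (x : H) : H := (show H →L[ℂ] H from T) x

/-- The Hilbert space tensor product of `H` and `K`: the completion of the algebraic tensor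
product for Mathlib's inner product, `⟨x ⊗ y, x' ⊗ y'⟩ = ⟨x, x'⟩ ⟨y, y'⟩`. -/
def HilbertTensor (H K : Type) [NormedAddCommGroup H] [InnerProductSpace ℂ H]
    [NormedAddCommGroup K] [InnerProductSpace ℂ K] : Type :=
  UniformSpace.Completion (H ⊗[ℂ] K)

section

variable (H K : Type) [NormedAddCommGroup H] [InnerProductSpace ℂ H]
  [NormedAddCommGroup K] [InnerProductSpace ℂ K]

/-- The norm of the Hilbert space tensor product is Mathlib's. -/
noncomputable instance : NormedAddCommGroup (HilbertTensor H K) :=
  (inferInstance : NormedAddCommGroup (UniformSpace.Completion (H ⊗[ℂ] K)))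

/-- The inner product of the Hilbert space tensor product is Mathlib's. -/
noncomputable instance : InnerProductSpace ℂ (HilbertTensor H K) :=
  (inferInstance : InnerProductSpace ℂ (UniformSpace.Completion (H ⊗[ℂ] K)))

instance : CompleteSpace (HilbertTensor H K) :=
  (inferInstance : CompleteSpace (UniformSpace.Completion (H ⊗[ℂ] K)))

end

/-- The elementary tensor `x ⊗ y` in the Hilbert space tensor product. -/
noncomputable def tensor {H K : Type} [NormedAddCommGroup H] [InnerProductSpace ℂ H]
    [NormedAddCommGroup K] [InnerProductSpace ℂ K] (x : H) (y : K) : HilbertTensor H K :=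
  ((x ⊗ₜ[ℂ] y : H ⊗[ℂ] K) : UniformSpace.Completion (H ⊗[ℂ] K))

/-! ### The minimal tensor product -/

/-- The representation `ρ` of `D` on the Hilbert space tensor product of `H` and `K` is spatial
for the representations `π` of `A` on `H` and `σ` of `B` on `K`: the operator `ρ (i a * j b)` is
the tensor product of the operators `π a` and `σ b`. -/
def IsSpatial {A B D H K : Type} [CStarAlgebra A] [CStarAlgebra B] [CStarAlgebra D]
    [NormedAddCommGroup H] [InnerProductSpace ℂ H] [CompleteSpace H]
    [NormedAddCommGroup K] [InnerProductSpace ℂ K] [CompleteSpace K]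
    (i : UHom A D) (j : UHom B D) (π : UHom A (BH H)) (σ : UHom B (BH K))
    (ρ : UHom D (BH (HilbertTensor H K))) : Prop :=
  ∀ (a : A) (b : B) (x : H) (y : K),
    (ρ.ap (i.ap a * j.ap b)).ap (tensor x y) = tensor ((π.ap a).ap x) ((σ.ap b).ap y)

/-- There are faithful representations `π` of `A` on `H`, `σ` of `B` on `K` and `ρ` of `D` on the
Hilbert space tensor product of `H` and `K` such that `ρ (i a * j b) = π a ⊗ σ b`. -/
def HasSpatialRepresentation (H K : Type) [NormedAddCommGroup H] [InnerProductSpace ℂ H]
    [CompleteSpace H] [NormedAddCommGroup K] [InnerProductSpace ℂ K] [CompleteSpace K]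
    {A B D : Type} [CStarAlgebra A] [CStarAlgebra B] [CStarAlgebra D]
    (i : UHom A D) (j : UHom B D) : Prop :=
  ∃ (π : UHom A (BH H)) (σ : UHom B (BH K)) (ρ : UHom D (BH (HilbertTensor H K))),
    Function.Injective π.ap ∧ Function.Injective σ.ap ∧ Function.Injective ρ.ap ∧
    IsSpatial i j π σ ρ

/-- The unital C*-algebra `D`, with the unital *-homomorphisms `i : A → D` and `j : B → D`, is the
minimal (spatial) tensor product of `A` and `B`, `i a * j b` being the elementary tensor `a ⊗ b`:
the elementary tensors span a dense subspace of `D`, and for some Hilbert spaces `H` and `K` there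
are faithful representations `π` of `A` on `H`, `σ` of `B` on `K` and `ρ` of `D` on the Hilbert
space tensor product of `H` and `K` such that `ρ (a ⊗ b) = π a ⊗ σ b`. -/
def IsMinimalTensorProduct {A B D : Type} [CStarAlgebra A] [CStarAlgebra B] [CStarAlgebra D]
    (i : UHom A D) (j : UHom B D) : Prop :=
  Dense (Submodule.span ℂ {d : D | ∃ a b, d = i.ap a * j.ap b} : Set D) ∧
  ∃ (H K : Type) (_ : NormedAddCommGroup H) (_ : InnerProductSpace ℂ H) (_ : CompleteSpace H)
    (_ : NormedAddCommGroup K) (_ : InnerProductSpace ℂ K) (_ : CompleteSpace K),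
    HasSpatialRepresentation H K i j

/-- `γ` is the tensor product of the actions `α` and `β`: `γ_(g,h) (a ⊗ b) = α_g a ⊗ β_h b`. -/
def IsTensorProductAction {A B D G H : Type} [CStarAlgebra A] [CStarAlgebra B] [CStarAlgebra D]
    [Group G] [Group H] (i : UHom A D) (j : UHom B D) (α : Act G A) (β : Act H B)
    (γ : Act (G × H) D) : Prop :=
  ∀ g h a b, γ.ap (g, h) (i.ap a * j.ap b) = i.ap (α.ap g a) * j.ap (β.ap h b)

/-- The setting of the problem: simple unital C*-algebras `A` and `B`, their minimal tensor product
`D`, finite groups `G` and `H`, actions `α` of `G` on `A` and `β` of `H` on `B`, and the tensor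
product action `γ` of `G × H` on `D`. -/
structure TensorProductAction where
  /-- the first C*-algebra -/
  A : Type
  /-- the second C*-algebra -/
  B : Type
  /-- the minimal tensor product -/
  D : Type
  [algA : CStarAlgebra A]
  [algB : CStarAlgebra B]
  [algD : CStarAlgebra D]
  simpleA : IsSimpleRing A
  simpleB : IsSimpleRing B
  /-- `a ↦ a ⊗ 1` -/
  i : UHom A D
  /-- `b ↦ 1 ⊗ b` -/
  j : UHom B D
  minimal : IsMinimalTensorProduct i j
  /-- the group acting on `A` -/
  G : Type
  /-- the group acting on `B` -/
  H : Type
  [groupG : Group G]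
  [groupH : Group H]
  [fintypeG : Fintype G]
  [fintypeH : Fintype H]
  /-- the action on `A` -/
  α : Act G A
  /-- the action on `B` -/
  β : Act H B
  /-- the action on `D` -/
  γ : Act (G × H) D
  isTensorProduct : IsTensorProductAction i j α β γ

attribute [instance] TensorProductAction.algA TensorProductAction.algB TensorProductAction.algD
  TensorProductAction.groupG TensorProductAction.groupH TensorProductAction.fintypeG
  TensorProductAction.fintypeH

end Pool.Agent.Work.MP_7f0ddb_an.Problem
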