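import Pool.Agent.Work.MP_7f0ddb_an.H59.RokhlinD

/-!
# The action on the Bunce–Deddens algebra does not have the Rokhlin property
-/

open scoped InnerProductSpace

namespace Pool.Agent.Work.MP_7f0ddb_an.H59

section rep

set_option linter.unusedSectionVars false

variable (N : ℕ) [NeZero N]

/-- `x ↦ d^x` on `ℤ/N`. -/
noncomputable def ev (d : Circle) (x : ZMod N) : Circle := d ^ x.val

variable {N}

theorem ev_add {d : Circle} (hd : d ^ N = 1) (x : ZMod N) (l : ℤ) :
    ev N d (x + (l : ZMod N)) = ev N d x * d ^ l := by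
  have h1 : (((x + (l : ZMod N)).val : ℕ) : ℤ) = ((x.val : ℤ) + l) % (N : ℤ) := by
    have h2 : x + (l : ZMod N) = (((x.val : ℤ) + l : ℤ) : ZMod N) := by
      push_cast
      rw [ZMod.natCast_zmod_val]
    rw [h2, ZMod.val_intCast]
  have h3 : d ^ (x + (l : ZMod N)).val = d ^ (((x.val : ℤ) + l) % (N : ℤ)) := by
    rw [← zpow_natCast, h1]
  rw [ev, ev, h3]
  have h4 : d ^ ((x.val : ℤ) + l) = d ^ (((x.val : ℤ) + l) % (N : ℤ)) := by
    conv_lhs => rw [← Int.emod_add_mul_ediv ((x.val : ℤ) + l) N]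
    rw [zpow_add, zpow_mul, zpow_natCast, hd, one_zpow, mul_one]
  rw [← h4, zpow_add, zpow_natCast]

theorem ev_mul (d e : Circle) (x : ZMod N) : ev N (d * e) x = ev N d x * ev N e x :=
  mul_pow _ _ _

theorem ev_inv (d : Circle) (x : ZMod N) : ev N d⁻¹ x = (ev N d x)⁻¹ := inv_pow _ _

theorem ev_one (x : ZMod N) : ev N 1 x = 1 := one_pow _

variable (N)

/-- The integer component of an element of `ℤ × ℤ(3^∞)`. -/
def kk (g : GA) : ℤ := Multiplicative.toAdd g.1

theorem kk_mul (g h : GA) : kk (g * h) = kk g + kk h := rfl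

theorem kk_inv (g : GA) : kk g⁻¹ = - kk g := rfl

theorem kk_one : kk 1 = 0 := rfl

/-- The finite dimensional representations. -/
noncomputable def Rm (ζ : Circle) (g : GA) : Matrix (ZMod N) (ZMod N) ℂ :=
  Matrix.of fun x y =>
    if x = y + ((kk g : ℤ) : ZMod N) then ((ζ ^ kk g * ev N g.2 y : Circle) : ℂ) else 0

theorem Rm_apply (ζ : Circle) (g : GA) (x y : ZMod N) : Rm N ζ g x y =
    if x = y + ((kk g : ℤ) : ZMod N) then ((ζ ^ kk g * ev N g.2 y : Circle) : ℂ) else 0 := rfl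

theorem norm_Rm_apply_le (ζ : Circle) (g : GA) (x y : ZMod N) : ‖Rm N ζ g x y‖ ≤ 1 := by
  rw [Rm_apply]
  split_ifs
  · rw [Circle.norm_coe]
  · rw [norm_zero]; exact zero_le_one

theorem Rm_one (ζ : Circle) : Rm N ζ 1 = 1 := by
  ext x y
  rw [Rm_apply, kk_one, Matrix.one_apply]
  simp [ev_one]

theorem Rm_mul {g : GA} (hg : (g.2 : Circle) ^ N = 1) (ζ : Circle) (h : GA) :
    Rm N ζ g * Rm N ζ h = (ωA g h : ℂ) • Rm N ζ (g * h) := by
  ext x y
  rw [Matrix.mul_apply, Finset.sum_eq_single (y + ((kk h : ℤ) : ZMod N))]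
  · rw [Matrix.smul_apply, Rm_apply, Rm_apply, Rm_apply, if_pos rfl, kk_mul, smul_eq_mul]
    have h1 : y + ((kk h : ℤ) : ZMod N) + ((kk g : ℤ) : ZMod N) =
        y + ((kk g + kk h : ℤ) : ZMod N) := by push_cast; ring
    rw [h1]
    by_cases hx : x = y + ((kk g + kk h : ℤ) : ZMod N)
    · rw [if_pos hx, if_pos hx, ← Circle.coe_mul, ← Circle.coe_mul, ev_add hg]
      congr 1
      change ζ ^ kk g * (ev N (g.2 : Circle) y * (g.2 : Circle) ^ kk h) *
        (ζ ^ kk h * ev N (h.2 : Circle) y) = (g.2 : Circle) ^ kk h *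
        (ζ ^ (kk g + kk h) * ev N ((g * h).2 : Circle) y)
      have h2 : (((g * h).2 : D3) : Circle) = (g.2 : Circle) * (h.2 : Circle) := rfl
      rw [h2, ev_mul, zpow_add]
      ac_rfl
    · rw [if_neg hx, if_neg hx, zero_mul, mul_zero]
  · intro z _ hz
    rw [Rm_apply N ζ h, if_neg hz, mul_zero]
  · intro h'
    exact absurd (Finset.mem_univ _) h'

theorem star_Rm {g : GA} (hg : (g.2 : Circle) ^ N = 1) (ζ : Circle) :
    star (Rm N ζ g) = (ωA g g : ℂ) • Rm N ζ g⁻¹ := by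
  ext x y
  rw [Matrix.star_apply, Matrix.smul_apply, Rm_apply, Rm_apply, kk_inv, smul_eq_mul]
  have h1 : (y = x + ((kk g : ℤ) : ZMod N)) ↔ (x = y + ((-kk g : ℤ) : ZMod N)) := by
    constructor
    · intro h; rw [h]; push_cast; ring
    · intro h; rw [h]; push_cast; ring
  by_cases hx : y = x + ((kk g : ℤ) : ZMod N)
  · rw [if_pos hx, if_pos (h1.1 hx), ← Circle.coe_mul]
    have h2 : ev N (g.2 : Circle) y = ev N (g.2 : Circle) x * (g.2 : Circle) ^ kk g := by
      rw [hx]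
      exact ev_add hg x (kk g)
    have h3 : (((g⁻¹).2 : D3) : Circle) = (g.2 : Circle)⁻¹ := rfl
    have h4 : ωA g g = (g.2 : Circle) ^ kk g := rfl
    rw [h3, ev_inv, h2, h4]
    change (starRingEnd ℂ) _ = _
    rw [← Circle.coe_inv_eq_conj, mul_inv]
    congr 1
    rw [mul_inv, zpow_neg]
    have h5 : (g.2 : Circle) ^ kk g * ((ζ ^ kk g)⁻¹ * ((ev N (g.2 : Circle) x)⁻¹ *
        ((g.2 : Circle) ^ kk g)⁻¹)) = (ζ ^ kk g)⁻¹ * (ev N (g.2 : Circle) x)⁻¹ *
        ((g.2 : Circle) ^ kk g * ((g.2 : Circle) ^ kk g)⁻¹) := by ac_rfl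
    rw [h5, mul_inv_cancel, mul_one]
  · rw [if_neg hx, if_neg (fun h => hx (h1.2 h)), mul_zero, star_zero]

theorem Rm_neg (ζ : Circle) (g : GA) :
    Rm N (sgn 1 * ζ) g = (cA (-1) g : ℂ) • Rm N ζ g := by
  ext x y
  rw [Matrix.smul_apply, Rm_apply, Rm_apply, smul_eq_mul]
  have h : cA (-1) g = sgn 1 ^ kk g := by
    rw [cA, invHom_neg_one]; rfl
  split_ifs
  · rw [← Circle.coe_mul, h, mul_zpow, mul_assoc]
  · rw [mul_zero]

theorem continuous_Rm (g : GA) : Continuous fun ζ : Circle => Rm N ζ g := by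
  refine continuous_matrix fun x y => ?_
  simp only [Rm_apply]
  split_ifs
  · exact continuous_induced_dom.comp ((continuous_zpow _).mul continuous_const)
  · exact continuous_const

/-! ### Pairs -/

/-- The ambient algebra of pairs. -/
abbrev Pair : Type := sysA.alg × (Circle → Matrix (ZMod N) (ZMod N) ℂ)

/-- The pair of a group element. -/
noncomputable def pU (g : GA) : Pair N := (sysA.U g, fun ζ => Rm N ζ g)

/-- Group elements of level `N` and length at most `L`. -/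
def box (L : ℕ) : Set GA := {g | (g.2 : Circle) ^ N = 1 ∧ (kk g).natAbs ≤ L}

/-- The pairs supported in a box. -/
noncomputable def PP (L : ℕ) : Submodule ℂ (Pair N) := Submodule.span ℂ (pU N '' box N L)

variable {N}

theorem pU_mul {g : GA} (hg : (g.2 : Circle) ^ N = 1) (h : GA) :
    pU N g * pU N h = (ωA g h : ℂ) • pU N (g * h) := by
  refine Prod.ext (sysA.U_mul g h) (funext fun ζ => Rm_mul N hg ζ h)

theorem star_pU {g : GA} (hg : (g.2 : Circle) ^ N = 1) :
    star (pU N g) = (ωA g g : ℂ) • pU N g⁻¹ :=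
  Prod.ext (Subtype.ext (sysA.star_u g)) (funext fun ζ => star_Rm N hg ζ)

theorem mul_mem_box {L L' : ℕ} {g h : GA} (hg : g ∈ box N L) (hh : h ∈ box N L') :
    g * h ∈ box N (L + L') := by
  refine ⟨?_, ?_⟩
  · have h2 : (((g * h).2 : D3) : Circle) = (g.2 : Circle) * (h.2 : Circle) := rfl
    rw [h2, mul_pow, hg.1, hh.1, one_mul]
  · rw [kk_mul]
    exact (Int.natAbs_add_le _ _).trans (add_le_add hg.2 hh.2)

theorem inv_mem_box {L : ℕ} {g : GA} (hg : g ∈ box N L) : g⁻¹ ∈ box N L := by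
  refine ⟨?_, ?_⟩
  · have h3 : (((g⁻¹).2 : D3) : Circle) = (g.2 : Circle)⁻¹ := rfl
    rw [h3, inv_pow, hg.1, inv_one]
  · rw [kk_inv, Int.natAbs_neg]
    exact hg.2

theorem PP_mul {L L' : ℕ} {p q : Pair N} (hp : p ∈ PP N L) (hq : q ∈ PP N L') :
    p * q ∈ PP N (L + L') := by
  induction hp using Submodule.span_induction with
  | mem p hp =>
    obtain ⟨g, hg, rfl⟩ := hp
    induction hq using Submodule.span_induction with
    | mem q hq =>
      obtain ⟨h, hh, rfl⟩ := hq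
      rw [pU_mul hg.1]
      exact Submodule.smul_mem _ _ (Submodule.subset_span ⟨_, mul_mem_box hg hh, rfl⟩)
    | zero => rw [mul_zero]; exact Submodule.zero_mem _
    | add x y _ _ hx hy => rw [mul_add]; exact Submodule.add_mem _ hx hy
    | smul c x _ hx => rw [mul_smul_comm]; exact Submodule.smul_mem _ _ hx
  | zero => rw [zero_mul]; exact Submodule.zero_mem _
  | add x y _ _ hx hy => rw [add_mul]; exact Submodule.add_mem _ hx hy
  | smul c x _ hx => rw [smul_mul_assoc]; exact Submodule.smul_mem _ _ hx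

theorem PP_star {L : ℕ} {p : Pair N} (hp : p ∈ PP N L) : star p ∈ PP N L := by
  induction hp using Submodule.span_induction with
  | mem p hp =>
    obtain ⟨g, hg, rfl⟩ := hp
    rw [star_pU hg.1]
    exact Submodule.smul_mem _ _ (Submodule.subset_span ⟨_, inv_mem_box hg, rfl⟩)
  | zero => rw [star_zero]; exact Submodule.zero_mem _
  | add x y _ _ hx hy => rw [star_add]; exact Submodule.add_mem _ hx hy
  | smul c x _ hx => rw [star_smul]; exact Submodule.smul_mem _ _ hx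

theorem one_mem_PP (L : ℕ) : (1 : Pair N) ∈ PP N L := by
  have h : (1 : Pair N) = pU N 1 :=
    Prod.ext sysA.U_one.symm (funext fun ζ => (Rm_one N ζ).symm)
  rw [h]
  refine Submodule.subset_span ⟨1, ⟨?_, ?_⟩, rfl⟩
  · change ((1 : D3) : Circle) ^ N = 1
    rw [OneMemClass.coe_one, one_pow]
  · rw [kk_one]; simp

theorem PP_mono {L L' : ℕ} (h : L ≤ L') : PP N L ≤ PP N L' :=
  Submodule.span_mono (Set.image_mono fun _ hg => ⟨hg.1, hg.2.trans h⟩)

theorem PP_pow {L : ℕ} {p : Pair N} (hp : p ∈ PP N L) (m : ℕ) : p ^ m ∈ PP N (m * L) := by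
  induction m with
  | zero => rw [pow_zero]; exact one_mem_PP _
  | succ m ih =>
    rw [pow_succ, Nat.succ_mul]
    exact PP_mul ih hp

/-- The flip of pairs. -/
noncomputable def flipP (p : Pair N) : Pair N := (actA (-1) p.1, fun ζ => p.2 (sgn 1 * ζ))

theorem flipP_add (p q : Pair N) : flipP (p + q) = flipP p + flipP q :=
  Prod.ext (map_add (actA (-1)) _ _) rfl

theorem flipP_smul (c : ℂ) (p : Pair N) : flipP (c • p) = c • flipP p :=
  Prod.ext (map_smul (actA (-1)) _ _) rfl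

theorem flipP_zero : flipP (0 : Pair N) = 0 :=
  Prod.ext (map_zero (actA (-1))) rfl

theorem flipP_star (p : Pair N) : flipP (star p) = star (flipP p) :=
  Prod.ext (map_star (actA (-1)) _) rfl

theorem flipP_flipP (p : Pair N) : flipP (flipP p) = p := by
  refine Prod.ext ?_ (funext fun ζ => ?_)
  · change actA (-1) (actA (-1) p.1) = p.1
    rw [← StarAlgEquiv.mul_apply, ← map_mul]
    have h : (-1 : ℤˣ) * -1 = 1 := by decide
    rw [h, map_one]
    rfl
  · change p.2 (sgn 1 * (sgn 1 * ζ)) = p.2 ζ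
    rw [← mul_assoc, sgn_mul_self, one_mul]

theorem flipP_pU (g : GA) : flipP (pU N g) = (cA (-1) g : ℂ) • pU N g :=
  Prod.ext (actA_U _ _) (funext fun ζ => Rm_neg N ζ g)

theorem PP_flip {L : ℕ} {p : Pair N} (hp : p ∈ PP N L) : flipP p ∈ PP N L := by
  induction hp using Submodule.span_induction with
  | mem p hp =>
    obtain ⟨g, hg, rfl⟩ := hp
    rw [flipP_pU]
    exact Submodule.smul_mem _ _ (Submodule.subset_span ⟨_, hg, rfl⟩)
  | zero => rw [flipP_zero]; exact Submodule.zero_mem _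
  | add x y _ _ hx hy => rw [flipP_add]; exact Submodule.add_mem _ hx hy
  | smul c x _ hx => rw [flipP_smul]; exact Submodule.smul_mem _ _ hx

theorem PP_continuous {L : ℕ} {p : Pair N} (hp : p ∈ PP N L) : Continuous p.2 := by
  induction hp using Submodule.span_induction with
  | mem p hp =>
    obtain ⟨g, hg, rfl⟩ := hp
    exact continuous_Rm N g
  | zero => exact continuous_const
  | add x y _ _ hx hy => exact hx.add hy
  | smul c x _ hx => exact hx.const_smul c

/-- Roots of unity of order dividing `N`. -/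
theorem finite_roots : {d : Circle | d ^ N = 1}.Finite := by
  have h : Set.Finite {z : ℂ | z ^ N = 1} := by
    have h1 : {z : ℂ | z ^ N = 1} ⊆ ((Polynomial.nthRoots N (1 : ℂ)).toFinset : Set ℂ) := by
      intro z hz
      simp only [Finset.mem_coe, Multiset.mem_toFinset]
      exact (Polynomial.mem_nthRoots (Nat.pos_of_ne_zero (NeZero.ne N))).2 hz
    exact (Finset.finite_toSet _).subset h1
  refine Set.Finite.subset (h.preimage (f := fun d : Circle => (d : ℂ))
    (Circle.coe_injective.injOn)) fun d hd => ?_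
  change (d : ℂ) ^ N = 1
  rw [← Circle.coe_pow, hd, Circle.coe_one]

theorem exists_card_bound : ∃ C : ℕ, ∀ (L : ℕ) (S : Finset GA), (∀ g ∈ S, g ∈ box N L) →
    S.card ≤ (2 * L + 1) * C := by
  classical
  refine ⟨(finite_roots (N := N)).toFinset.card, fun L S hS => ?_⟩
  have h1 : S.card ≤ ((Finset.Icc (-L : ℤ) L) ×ˢ (finite_roots (N := N)).toFinset).card := by
    refine Finset.card_le_card_of_injOn (fun g => (kk g, (g.2 : Circle))) (fun g hg => ?_) ?_
    · have hb := hS g hg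
      rw [Finset.mem_coe, Finset.mem_product]
      refine ⟨?_, (finite_roots (N := N)).mem_toFinset.2 hb.1⟩
      rw [Finset.mem_Icc]
      have := hb.2
      constructor <;> (dsimp only; omega)
    · intro g _ h _ hgh
      have h2 := (Prod.ext_iff.1 hgh)
      exact Prod.ext (by exact h2.1) (Subtype.ext h2.2)
  refine h1.trans ?_
  rw [Finset.card_product, Int.card_Icc]
  have : ((L : ℤ) + 1 - -(L : ℤ)).toNat = 2 * L + 1 := by omega
  rw [this]

/-- The entries of the second component are controlled by the norm of the first. -/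
theorem exists_entry_bound : ∃ C : ℝ, 0 ≤ C ∧ ∀ (L : ℕ) (p : Pair N), p ∈ PP N L →
    ∀ ζ x y, ‖p.2 ζ x y‖ ≤ (2 * L + 1) * C * ‖p.1‖ := by
  classical
  obtain ⟨C, hC⟩ := exists_card_bound (N := N)
  refine ⟨C, Nat.cast_nonneg _, fun L p hp ζ x y => ?_⟩
  obtain ⟨f, hf, rfl⟩ := (Finsupp.mem_span_image_iff_linearCombination ℂ).1 hp
  have hsupp : ∀ g ∈ f.support, g ∈ box N L := fun g hg => hf hg
  have h1 : (Finsupp.linearCombination ℂ (pU N) f).1 = f.sum fun g a => a • sysA.U g := by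
    rw [Finsupp.linearCombination_apply, Finsupp.sum, Finsupp.sum, Prod.fst_sum]
    rfl
  have h2 : (Finsupp.linearCombination ℂ (pU N) f).2 ζ x y =
      ∑ g ∈ f.support, f g * Rm N ζ g x y := by
    rw [Finsupp.linearCombination_apply, Finsupp.sum, Prod.snd_sum, Finset.sum_apply,
      Matrix.sum_apply]
    rfl
  have h3 : ∀ g, ‖f g‖ ≤ ‖(Finsupp.linearCombination ℂ (pU N) f).1‖ := by
    intro g
    rw [h1]
    set b : sysA.alg := f.sum fun g a => a • sysA.U g with hb
    have hτ : sysA.τ ((star (sysA.U g) * b : sysA.alg) : L2 GA →L[ℂ] L2 GA) = f g := by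
      have e1 : star (sysA.U g) * b = ∑ h ∈ f.support, f h • (star (sysA.U g) * sysA.U h) := by
        rw [hb, Finsupp.sum, Finset.mul_sum]
        refine Finset.sum_congr rfl fun h _ => ?_
        rw [mul_smul_comm]
      have e2 : ∀ S : Finset GA,
          sysA.τ ((∑ h ∈ S, f h • (star (sysA.U g) * sysA.U h) : sysA.alg) :
            L2 GA →L[ℂ] L2 GA) =
          ∑ h ∈ S, f h * sysA.τ ((star (sysA.U g) * sysA.U h : sysA.alg) :
            L2 GA →L[ℂ] L2 GA) := by
        intro S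
        induction S using Finset.induction_on with
        | empty => simp [sysA.τ_zero]
        | insert h S hh ih =>
          rw [Finset.sum_insert hh, Finset.sum_insert hh, ← ih]
          have := sysA.τ_add ((f h • (star (sysA.U g) * sysA.U h) : sysA.alg) :
            L2 GA →L[ℂ] L2 GA) ((∑ h ∈ S, f h • (star (sysA.U g) * sysA.U h) : sysA.alg) :
            L2 GA →L[ℂ] L2 GA)
          refine this.trans ?_
          congr 1
          exact sysA.τ_smul _ _
      rw [e1, e2]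
      have e3 : ∀ h, h ≠ g → sysA.τ ((star (sysA.U g) * sysA.U h : sysA.alg) :
          L2 GA →L[ℂ] L2 GA) = 0 := by
        intro h hh
        have e4 : ((star (sysA.U g) * sysA.U h : sysA.alg) : L2 GA →L[ℂ] L2 GA) =
            ((sysA.ω g g : ℂ) * (sysA.ω g⁻¹ h : ℂ)) • sysA.u (g⁻¹ * h) := by
          change star (sysA.u g) * sysA.u h = _
          rw [sysA.star_u, smul_mul_assoc, sysA.u_mul, smul_smul]
        rw [e4, sysA.τ_smul, sysA.τ_u (fun h' => hh (inv_mul_eq_one.1 h').symm), mul_zero]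
      have e5 : sysA.τ ((star (sysA.U g) * sysA.U g : sysA.alg) : L2 GA →L[ℂ] L2 GA) = 1 := by
        rw [sysA.star_U_mul]; exact sysA.τ_one
      by_cases hg : g ∈ f.support
      · rw [Finset.sum_eq_single_of_mem g hg fun h _ hh => by rw [e3 h hh, mul_zero], e5, mul_one]
      · rw [Finsupp.notMem_support_iff.1 hg]
        refine Finset.sum_eq_zero fun h hh => ?_
        rw [e3 h (fun h' => hg (h' ▸ hh)), mul_zero]
    calc ‖f g‖ = ‖sysA.τ ((star (sysA.U g) * b : sysA.alg) : L2 GA →L[ℂ] L2 GA)‖ := by rw [hτ]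
      _ ≤ ‖star (sysA.U g) * b‖ := sysA.norm_τ_le _
      _ = ‖b‖ := CStarRing.norm_mem_unitary_mul b (Unitary.star_mem (sysA.U_mem_unitary g))
  rw [h2]
  calc ‖∑ g ∈ f.support, f g * Rm N ζ g x y‖ ≤ ∑ g ∈ f.support, ‖f g * Rm N ζ g x y‖ :=
        norm_sum_le _ _
    _ ≤ ∑ _g ∈ f.support, ‖(Finsupp.linearCombination ℂ (pU N) f).1‖ := by
        refine Finset.sum_le_sum fun g _ => ?_
        rw [norm_mul]
        calc ‖f g‖ * ‖Rm N ζ g x y‖ ≤ ‖(Finsupp.linearCombination ℂ (pU N) f).1‖ * 1 :=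
              mul_le_mul (h3 g) (norm_Rm_apply_le N ζ g x y) (norm_nonneg _) (norm_nonneg _)
          _ = _ := mul_one _
    _ = f.support.card * ‖(Finsupp.linearCombination ℂ (pU N) f).1‖ := by
        rw [Finset.sum_const, nsmul_eq_mul]
    _ ≤ (2 * L + 1) * C * ‖(Finsupp.linearCombination ℂ (pU N) f).1‖ := by
        gcongr
        exact_mod_cast hC L f.support hsupp

/-! ### Invertibility of the finite dimensional representations -/

theorem fst_pow (p : Pair N) (m : ℕ) : (p ^ m).1 = p.1 ^ m := Prod.pow_fst _ _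

theorem snd_pow (p : Pair N) (m : ℕ) (ζ : Circle) : (p ^ m).2 ζ = p.2 ζ ^ m := by
  rw [Prod.pow_snd, Pi.pow_apply]

/-- If the first component has norm at most `1/2`, then `1` is not an eigenvalue of the second. -/
theorem eq_zero_of_mulVec_eq {L : ℕ} {p : Pair N} (hp : p ∈ PP N L) (hnorm : ‖p.1‖ ≤ 1 / 2)
    (ζ : Circle) (v : ZMod N → ℂ) (hv : (p.2 ζ).mulVec v = v) : v = 0 := by
  obtain ⟨C, hC0, hC⟩ := exists_entry_bound (N := N)
  have hpow : ∀ m : ℕ, (p.2 ζ ^ m).mulVec v = v := by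
    intro m
    induction m with
    | zero => simp
    | succ m ih => rw [pow_succ, ← Matrix.mulVec_mulVec, hv, ih]
  have hentry : ∀ x y, Filter.Tendsto (fun m : ℕ => (p.2 ζ ^ m) x y) Filter.atTop (nhds 0) := by
    intro x y
    rw [tendsto_zero_iff_norm_tendsto_zero]
    have hb : ∀ m : ℕ, ‖(p.2 ζ ^ m) x y‖ ≤
        (2 * L * C) * ((m : ℝ) * (1 / 2) ^ m) + C * (1 / 2) ^ m := by
      intro m
      have h1 := hC (m * L) (p ^ m) (PP_pow hp m) ζ x y
      rw [snd_pow, fst_pow] at h1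
      have h2 : ‖p.1 ^ m‖ ≤ (1 / 2) ^ m := by
        rcases Nat.eq_zero_or_pos m with rfl | hm
        · rw [pow_zero, pow_zero]
          have := sysA.norm_U_le 1
          rwa [sysA.U_one] at this
        · exact (norm_pow_le' _ hm).trans (pow_le_pow_left₀ (norm_nonneg _) hnorm m)
      calc ‖(p.2 ζ ^ m) x y‖ ≤ (2 * ((m * L : ℕ) : ℝ) + 1) * C * ‖p.1 ^ m‖ := h1
        _ ≤ (2 * ((m * L : ℕ) : ℝ) + 1) * C * (1 / 2) ^ m := by gcongr
        _ = _ := by push_cast; ring
    refine squeeze_zero (fun m => norm_nonneg _) hb ?_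
    have h3 := (tendsto_self_mul_const_pow_of_lt_one (r := (1 / 2 : ℝ)) (by norm_num)
      (by norm_num)).const_mul (2 * L * C)
    have h4 := (tendsto_pow_atTop_nhds_zero_of_lt_one (r := (1 / 2 : ℝ)) (by norm_num)
      (by norm_num)).const_mul C
    have h5 := h3.add h4
    simpa using h5
  funext x
  have h1 : Filter.Tendsto (fun m : ℕ => ((p.2 ζ ^ m).mulVec v) x) Filter.atTop (nhds 0) := by
    have h2 : Filter.Tendsto (fun m : ℕ => ∑ y, (p.2 ζ ^ m) x y * v y) Filter.atTop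
        (nhds (∑ _y : ZMod N, 0 * (0 : ℂ))) := by
      refine tendsto_finsetSum _ fun y _ => ?_
      have := (hentry x y).mul_const (v y)
      simpa using this
    rw [Finset.sum_congr rfl fun _ _ => mul_zero (0 : ℂ), Finset.sum_const_zero] at h2
    exact h2
  simp only [hpow] at h1
  exact tendsto_nhds_unique tendsto_const_nhds h1

/-- If `p.1` is close to a symmetry, the second component is invertible everywhere. -/
theorem det_ne_zero {L : ℕ} {p : Pair N} (hp : p ∈ PP N L) (hnorm : ‖1 - p.1 * p.1‖ ≤ 1 / 2)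
    (ζ : Circle) : (p.2 ζ).det ≠ 0 := by
  intro hdet
  obtain ⟨v, hv0, hv⟩ := Matrix.exists_mulVec_eq_zero_iff.2 hdet
  refine hv0 (eq_zero_of_mulVec_eq (p := 1 - p * p) (L := L + L)
    (Submodule.sub_mem _ (one_mem_PP _) (PP_mul hp hp)) hnorm ζ v ?_)
  change (1 - p.2 ζ * p.2 ζ).mulVec v = v
  rw [Matrix.sub_mulVec, Matrix.one_mulVec, ← Matrix.mulVec_mulVec, hv, Matrix.mulVec_zero,
    sub_zero]

theorem sgn_one_mul (ζ : Circle) : ((sgn 1 * ζ : Circle) : ℂ) = -ζ := by
  rw [Circle.coe_mul, coe_sgn_one, neg_one_mul]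

/-- There is no odd self-adjoint element of odd level close to a symmetry. -/
theorem no_odd_symmetry (hN : Odd N) {L : ℕ} {p : Pair N} (hp : p ∈ PP N L)
    (hnorm : ‖1 - p.1 * p.1‖ ≤ 1 / 2) (hstar : star p = p) (hflip : flipP p = -p) : False := by
  set D : Circle → ℂ := fun ζ => (p.2 ζ).det with hD
  have hcont : Continuous D := (PP_continuous hp).matrix_det
  have hne : ∀ ζ, D ζ ≠ 0 := det_ne_zero hp hnorm
  have hreal : ∀ ζ, (D ζ).im = 0 := by
    intro ζ
    have h1 : star (p.2 ζ) = p.2 ζ := congrFun (congrArg Prod.snd hstar) ζ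
    have h2 : star (D ζ) = D ζ := by
      change star (p.2 ζ).det = (p.2 ζ).det
      rw [← Matrix.det_conjTranspose]
      exact congrArg Matrix.det h1
    exact Complex.conj_eq_iff_im.1 h2
  have hodd : ∀ ζ, D (sgn 1 * ζ) = - D ζ := by
    intro ζ
    have h1 : p.2 (sgn 1 * ζ) = -(p.2 ζ) := congrFun (congrArg Prod.snd hflip) ζ
    change (p.2 (sgn 1 * ζ)).det = - (p.2 ζ).det
    rw [h1, Matrix.det_neg, ZMod.card, hN.neg_one_pow, neg_one_mul]
  set f : ℝ → ℝ := fun t => (D (Circle.exp t)).re with hf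
  have hfc : Continuous f := Complex.continuous_re.comp (hcont.comp (by fun_prop))
  have hπ : Circle.exp Real.pi = sgn 1 * Circle.exp 0 := by
    apply Circle.ext
    rw [sgn_one_mul, Circle.coe_exp, Circle.coe_exp]
    simp [Complex.exp_pi_mul_I]
  have h1 : f Real.pi = - f 0 := by
    change (D (Circle.exp Real.pi)).re = - (D (Circle.exp 0)).re
    rw [hπ, hodd, Complex.neg_re]
  have hfne : ∀ t, f t ≠ 0 := fun t ht => hne (Circle.exp t) (Complex.ext ht (hreal _))
  have h2 : (0 : ℝ) ∈ Set.range f := by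
    rcases le_total 0 (f 0) with h | h
    · exact mem_range_of_exists_le_of_exists_ge hfc ⟨Real.pi, by rw [h1]; linarith⟩ ⟨0, h⟩
    · exact mem_range_of_exists_le_of_exists_ge hfc ⟨0, h⟩ ⟨Real.pi, by rw [h1]; linarith⟩
  obtain ⟨t, ht⟩ := h2
  exact hfne t ht

end rep

theorem norm_actA (k : ℤˣ) (a : sysA.alg) : ‖actA k a‖ = ‖a‖ := by
  have h : (actA k a : L2 GA →L[ℂ] L2 GA) =
      (VA k : L2 GA →L[ℂ] L2 GA) * (a : L2 GA →L[ℂ] L2 GA) * star (VA k : L2 GA →L[ℂ] L2 GA) := rfl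
  change ‖(actA k a : L2 GA →L[ℂ] L2 GA)‖ = ‖(a : L2 GA →L[ℂ] L2 GA)‖
  rw [h, CStarRing.norm_mul_mem_unitary _ (Unitary.star_mem (VA k).2),
    CStarRing.norm_mem_unitary_mul _ (VA k).2]

theorem aux_module {M : Type} [AddCommGroup M] [Module ℂ M] (a b c d y z : M) :
    (4⁻¹ : ℂ) • (a + b - c - d) - y =
      (4⁻¹ : ℂ) • ((a - y) + (b - y) - (c - z) - (d - z)) - (2⁻¹ : ℂ) • (z + y) := by
  module

/-- Approximating an almost odd symmetry. -/
theorem odd_approx {A : Type} [CStarAlgebra A] (φ : A ≃⋆ₐ[ℂ] A) (hφ : ∀ a, ‖φ a‖ = ‖a‖) (y₀ a : A)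
    (hstar₀ : star y₀ = y₀) (hsq₀ : y₀ * y₀ = 1) (hnorm₀ : ‖y₀‖ ≤ 1)
    (hflip₀ : ‖φ y₀ + y₀‖ ≤ 1 / 50) (ha : ‖y₀ - a‖ < 1 / 100) :
    ‖1 - (4⁻¹ : ℂ) • (a + star a - φ a - φ (star a)) *
      (4⁻¹ : ℂ) • (a + star a - φ a - φ (star a))‖ ≤ 1 / 2 := by
  set b : A := (4⁻¹ : ℂ) • (a + star a - φ a - φ (star a)) with hb
  have hdist : ‖b - y₀‖ ≤ 1 / 50 := by
    have e1 : b - y₀ = (4⁻¹ : ℂ) • ((a - y₀) + star (a - y₀) - φ (a - y₀) -
        φ (star (a - y₀))) - (2⁻¹ : ℂ) • (φ y₀ + y₀) := by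
      rw [star_sub, map_sub, map_sub, hstar₀, hb]
      exact aux_module _ _ _ _ _ _
    have h1 : ‖(a - y₀) + star (a - y₀) - φ (a - y₀) - φ (star (a - y₀))‖ ≤ 4 * (1 / 100) := by
      have hp' : ‖a - y₀‖ ≤ 1 / 100 := by rw [norm_sub_rev]; exact ha.le
      have n1 := norm_sub_le ((a - y₀) + star (a - y₀) - φ (a - y₀)) (φ (star (a - y₀)))
      have n2 := norm_sub_le ((a - y₀) + star (a - y₀)) (φ (a - y₀))
      have n3 := norm_add_le (a - y₀) (star (a - y₀))
      rw [hφ, norm_star] at n1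
      rw [hφ] at n2
      rw [norm_star] at n3
      linarith
    rw [e1]
    refine (norm_sub_le _ _).trans ?_
    rw [norm_smul, norm_smul]
    have h3 : ‖(4⁻¹ : ℂ)‖ = 4⁻¹ := by simp
    have h4 : ‖(2⁻¹ : ℂ)‖ = 2⁻¹ := by simp
    rw [h3, h4]
    linarith
  have e1 : 1 - b * b = -((b - y₀) * b) - y₀ * (b - y₀) := by
    rw [← hsq₀]; noncomm_ring
  have hqn : ‖b‖ ≤ 2 := by
    have := norm_add_le (b - y₀) y₀
    rw [sub_add_cancel] at this
    linarith
  rw [e1]
  refine (norm_sub_le _ _).trans ?_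
  rw [norm_neg]
  have h1 : ‖(b - y₀) * b‖ ≤ 1 / 50 * 2 := (norm_mul_le _ _).trans
    (mul_le_mul hdist hqn (norm_nonneg _) (by norm_num))
  have h2 : ‖y₀ * (b - y₀)‖ ≤ 1 * (1 / 50) := (norm_mul_le _ _).trans
    (mul_le_mul hnorm₀ hdist (norm_nonneg _) (by norm_num))
  linarith

/-- Almost odd symmetries from approximate Rokhlin projections. -/
theorem symmetry_of_rokhlin {A : Type} [CStarAlgebra A] (hone : ‖(1 : A)‖ ≤ 1)
    (σ : ℤˣ →* (A ≃⋆ₐ[ℂ] A)) (hR : HasRokhlinProperty σ) :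
    ∃ y₀ : A, star y₀ = y₀ ∧ y₀ * y₀ = 1 ∧ ‖y₀‖ ≤ 1 ∧ ‖σ (-1) y₀ + y₀‖ ≤ 1 / 50 := by
  classical
  obtain ⟨e, hproj, horth, hact, -, hsum⟩ := hR ∅ (1 / 100) (by norm_num)
  have hsum' : e 1 + e (-1) = 1 := by
    have h : (Finset.univ : Finset ℤˣ) = {1, -1} := by decide
    rw [h, Finset.sum_pair (by decide)] at hsum
    exact hsum
  have hstar₀ : star (e 1 - e (-1)) = e 1 - e (-1) := by
    rw [star_sub, (hproj 1).isSelfAdjoint.star_eq, (hproj (-1)).isSelfAdjoint.star_eq]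
  have hsq₀ : (e 1 - e (-1)) * (e 1 - e (-1)) = 1 := by
    rw [sub_mul, mul_sub, mul_sub, (hproj 1).isIdempotentElem, (hproj (-1)).isIdempotentElem,
      horth 1 (-1) (by decide), horth (-1) 1 (by decide), sub_zero, zero_sub, sub_neg_eq_add,
      hsum']
  refine ⟨e 1 - e (-1), hstar₀, hsq₀, ?_, ?_⟩
  · have h1 : ‖e 1 - e (-1)‖ * ‖e 1 - e (-1)‖ = ‖(1 : A)‖ := by
      rw [← CStarRing.norm_star_mul_self, hstar₀, hsq₀]
    nlinarith [norm_nonneg (e 1 - e (-1))]
  · have h1 := hact (-1) 1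
    have h2 := hact (-1) (-1)
    have e1 : (-1 : ℤˣ) * 1 = -1 := by decide
    have e2 : (-1 : ℤˣ) * -1 = 1 := by decide
    rw [e1] at h1
    rw [e2] at h2
    have e3 : σ (-1) (e 1 - e (-1)) + (e 1 - e (-1)) =
        (σ (-1) (e 1) - e (-1)) - (σ (-1) (e (-1)) - e 1) := by
      rw [map_sub]; abel
    rw [e3]
    have := norm_sub_le (σ (-1) (e 1) - e (-1)) (σ (-1) (e (-1)) - e 1)
    linarith

theorem flipP_sub {N : ℕ} [NeZero N] (a b : Pair N) : flipP (a - b) = flipP a - flipP b :=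
  Prod.ext (map_sub (actA (-1)) _ _) rfl

theorem flipP_odd {N : ℕ} [NeZero N] (p : Pair N) :
    flipP ((4⁻¹ : ℂ) • (p + star p - flipP p - flipP (star p))) =
      -((4⁻¹ : ℂ) • (p + star p - flipP p - flipP (star p))) := by
  rw [flipP_smul, flipP_sub, flipP_sub, flipP_add, flipP_flipP, flipP_flipP, ← smul_neg]
  congr 1
  abel

theorem star_odd {N : ℕ} [NeZero N] (p : Pair N) :
    star ((4⁻¹ : ℂ) • (p + star p - flipP p - flipP (star p))) =
      (4⁻¹ : ℂ) • (p + star p - flipP p - flipP (star p)) := by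
  rw [star_smul, star_sub, star_sub, star_add, star_star, flipP_star, star_star]
  have : star (4⁻¹ : ℂ) = 4⁻¹ := by simp
  rw [this]
  congr 1
  abel

theorem not_rokhlin_actA : ¬ HasRokhlinProperty actA := by
  classical
  intro hR
  have hone : ‖(1 : sysA.alg)‖ ≤ 1 := by
    have h2 := sysA.norm_U_le 1
    rwa [sysA.U_one] at h2
  obtain ⟨y₀, hstar₀, hsq₀, hnorm₀, hflip₀⟩ := symmetry_of_rokhlin hone actA hR
  obtain ⟨f, hf⟩ := sysA.exists_finsupp_approx y₀ (show (0 : ℝ) < 1 / 100 by norm_num)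
  obtain ⟨n, hn⟩ := exists_exponent f.support
  have hN0 : NeZero (3 ^ n) := ⟨by positivity⟩
  have hNodd : Odd (3 ^ n) := Odd.pow (by decide)
  have hpmem : Finsupp.linearCombination ℂ (pU (3 ^ n)) f ∈
      PP (3 ^ n) (f.support.sup fun g => (kk g).natAbs) := by
    refine (Finsupp.mem_span_image_iff_linearCombination ℂ).2 ⟨f, ?_, rfl⟩
    intro g hg
    exact ⟨hn g hg, Finset.le_sup (f := fun g => (kk g).natAbs) hg⟩
  have hp1 : (Finsupp.linearCombination ℂ (pU (3 ^ n)) f).1 = f.sum fun g a => a • sysA.U g := by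
    rw [Finsupp.linearCombination_apply, Finsupp.sum, Finsupp.sum, Prod.fst_sum]
    rfl
  rw [← hp1] at hf
  generalize Finsupp.linearCombination ℂ (pU (3 ^ n)) f = p at hpmem hf
  have hqmem := Submodule.smul_mem _ (4⁻¹ : ℂ) (Submodule.sub_mem _ (Submodule.sub_mem _
    (Submodule.add_mem _ hpmem (PP_star hpmem)) (PP_flip hpmem)) (PP_flip (PP_star hpmem)))
  exact no_odd_symmetry hNodd hqmem
    (odd_approx (actA (-1)) (norm_actA (-1)) y₀ p.1 hstar₀ hsq₀ hnorm₀ hflip₀ hf)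
    (star_odd p) (flipP_odd p)

end Pool.Agent.Work.MP_7f0ddb_an.H59
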