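import Pool.Agent.Work.MP_7f0ddb_an.H59.Defs
import Pool.Agent.Work.MP_7f0ddb_an.H59.NotRokhlin

/-!
# From the internal versions of the definitions to the public ones
-/

open scoped TensorProduct

namespace Pool.Agent.Work.MP_7f0ddb_an.H59

theorem rokhlin_iff {K D : Type} [Group K] [Fintype K] [CStarAlgebra D]
    (σ : K →* (D ≃⋆ₐ[ℂ] D)) :
    Problem.HasRokhlinProperty (K := K) (D := D) σ ↔ HasRokhlinProperty σ := Iff.rfl

theorem tensorProductAction_iff {A B D G H : Type} [CStarAlgebra A] [CStarAlgebra B]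
    [CStarAlgebra D] [Group G] [Group H] (i : A →⋆ₐ[ℂ] D) (j : B →⋆ₐ[ℂ] D)
    (α : G →* (A ≃⋆ₐ[ℂ] A)) (β : H →* (B ≃⋆ₐ[ℂ] B)) (γ : G × H →* (D ≃⋆ₐ[ℂ] D)) :
    Problem.IsTensorProductAction (A := A) (B := B) (D := D) (G := G) (H := H) i j α β γ ↔
      IsTensorProductAction i j α β γ := Iff.rfl

theorem minimal_of {A B D : Type} [CStarAlgebra A] [CStarAlgebra B] [CStarAlgebra D]
    (i : A →⋆ₐ[ℂ] D) (j : B →⋆ₐ[ℂ] D) (h : IsMinimalTensorProduct i j) :
    Problem.IsMinimalTensorProduct (A := A) (B := B) (D := D) i j := by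
  obtain ⟨hd, H, K, _, _, _, _, _, _, π, σ, ρ, h1, h2, h3, h4⟩ := h
  exact ⟨hd, H, K, _, _, _, _, _, _, π, σ, ρ, h1, h2, h3, h4⟩

/-- The example. -/
noncomputable def example_ : Problem.TensorProductAction where
  A := sysA.alg
  B := sysB.alg
  D := sysD.alg
  simpleA := sysA.isSimpleRing nondegA
  simpleB := sysB.isSimpleRing nondegB
  i := sysA.iHom sysB
  j := sysA.jHom sysB
  minimal := minimal_of _ _ (sysA.isMinimalTensorProduct sysB)
  G := ℤˣ
  H := ℤˣ
  α := actA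
  β := actB
  γ := actD
  isTensorProduct := isTensorProductAction_actD

theorem exists_example : ∃ S : Problem.TensorProductAction, Problem.IsStablyFinite S.D ∧
    Nat.card S.G = 2 ∧ Nat.card S.H = 2 ∧ Problem.HasRokhlinProperty S.γ ∧
    Problem.HasRokhlinProperty S.β ∧ ¬ Problem.HasRokhlinProperty S.α :=
  ⟨example_, sysD.stablyFinite,
    (by rw [Nat.card_eq_fintype_card]; decide : Nat.card ℤˣ = 2),
    (by rw [Nat.card_eq_fintype_card]; decide : Nat.card ℤˣ = 2),
    (rokhlin_iff actD).2 rokhlin_actD, (rokhlin_iff actB).2 rokhlin_actB,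
    fun h => not_rokhlin_actA ((rokhlin_iff actA).1 h)⟩

end Pool.Agent.Work.MP_7f0ddb_an.H59
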