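import Pool.Agent.Work.MP_7f0ddb_an.H59.Basic

/-!
# Operators on Hilbert space tensor products
-/

open scoped TensorProduct InnerProductSpace
open UniformSpace

namespace Pool.Agent.Work.MP_7f0ddb_an.H59

variable {H K : Type} [NormedAddCommGroup H] [InnerProductSpace ℂ H]
  [NormedAddCommGroup K] [InnerProductSpace ℂ K]

/-- The elementary tensor in the Hilbert space tensor product. -/
noncomputable def tm (x : H) (y : K) : HilbertTensor H K := ((x ⊗ₜ[ℂ] y : H ⊗[ℂ] K) : _)

theorem inner_tm (x x' : H) (y y' : K) :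
    ⟪tm x y, tm x' y'⟫_ℂ = ⟪x, x'⟫_ℂ * ⟪y, y'⟫_ℂ := by
  simp [tm]

theorem norm_tm (x : H) (y : K) : ‖tm x y‖ = ‖x‖ * ‖y‖ := by
  simp [tm]

theorem tm_add_left (x x' : H) (y : K) : tm (x + x') y = tm x y + tm x' y := by
  simp [tm, TensorProduct.add_tmul, Completion.coe_add]

theorem tm_add_right (x : H) (y y' : K) : tm x (y + y') = tm x y + tm x y' := by
  simp [tm, TensorProduct.tmul_add, Completion.coe_add]

theorem tm_smul_left (c : ℂ) (x : H) (y : K) : tm (c • x) y = c • tm x y := by
  rw [tm, tm, ← Completion.coe_smul]; congr 1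

theorem tm_smul_right (c : ℂ) (x : H) (y : K) : tm x (c • y) = c • tm x y := by
  rw [tm, tm, ← Completion.coe_smul, TensorProduct.tmul_smul]

theorem continuous_tm : Continuous fun p : H × K => tm p.1 p.2 := by
  have h : Continuous fun p : H × K => TensorProduct.mkL ℂ H K p.1 p.2 := by fun_prop
  exact (Completion.continuous_coe _).comp h

/-- Closed sets closed under addition containing all elementary tensors are everything. -/
theorem tm_induction {p : HilbertTensor H K → Prop} (hc : IsClosed {z | p z})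
    (hadd : ∀ z w, p z → p w → p (z + w)) (htm : ∀ x y, p (tm x y)) (z : HilbertTensor H K) :
    p z := by
  refine Completion.induction_on z hc fun a => ?_
  induction a using TensorProduct.induction_on with
  | zero =>
    have := htm (0 : H) (0 : K)
    rw [tm, TensorProduct.tmul_zero] at this
    exact this
  | tmul x y => exact htm x y
  | add a b ha hb => rw [Completion.coe_add]; exact hadd _ _ ha hb

/-- The operator `S ⊗ T` on the Hilbert space tensor product. -/
noncomputable def opMap (S : H →L[ℂ] H) (T : K →L[ℂ] K) :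
    HilbertTensor H K →L[ℂ] HilbertTensor H K := (TensorProduct.mapL S T).completion

theorem opMap_tm (S : H →L[ℂ] H) (T : K →L[ℂ] K) (x : H) (y : K) :
    opMap S T (tm x y) = tm (S x) (T y) := by
  rw [opMap, tm, ContinuousLinearMap.completion_apply_coe]
  rfl

theorem op_ext {S T : HilbertTensor H K →L[ℂ] HilbertTensor H K}
    (h : ∀ x y, S (tm x y) = T (tm x y)) : S = T := by
  ext z
  refine tm_induction (p := fun z => S z = T z) (isClosed_eq S.continuous T.continuous)
    (fun z w hz hw => ?_) h z
  rw [map_add, map_add, hz, hw]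

theorem opMap_one : opMap (1 : H →L[ℂ] H) (1 : K →L[ℂ] K) = 1 :=
  op_ext fun x y => by rw [opMap_tm]; rfl

theorem opMap_mul (S S' : H →L[ℂ] H) (T T' : K →L[ℂ] K) :
    opMap (S * S') (T * T') = opMap S T * opMap S' T' :=
  op_ext fun x y => by
    rw [mul_apply_eq_comp, opMap_tm, opMap_tm, opMap_tm]
    rfl

theorem opMap_add_left (S S' : H →L[ℂ] H) (T : K →L[ℂ] K) :
    opMap (S + S') T = opMap S T + opMap S' T :=
  op_ext fun x y => by
    rw [add_apply, opMap_tm, opMap_tm, opMap_tm,
      add_apply, tm_add_left]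

theorem opMap_add_right (S : H →L[ℂ] H) (T T' : K →L[ℂ] K) :
    opMap S (T + T') = opMap S T + opMap S T' :=
  op_ext fun x y => by
    rw [add_apply, opMap_tm, opMap_tm, opMap_tm,
      add_apply, tm_add_right]

theorem opMap_smul_left (c : ℂ) (S : H →L[ℂ] H) (T : K →L[ℂ] K) :
    opMap (c • S) T = c • opMap S T :=
  op_ext fun x y => by
    rw [smul_apply, opMap_tm, opMap_tm,
      smul_apply, tm_smul_left]

theorem opMap_smul_right (c : ℂ) (S : H →L[ℂ] H) (T : K →L[ℂ] K) :
    opMap S (c • T) = c • opMap S T :=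
  op_ext fun x y => by
    rw [smul_apply, opMap_tm, opMap_tm,
      smul_apply, tm_smul_right]

theorem norm_opMap_le (S : H →L[ℂ] H) (T : K →L[ℂ] K) : ‖opMap S T‖ ≤ ‖S‖ * ‖T‖ := by
  refine ContinuousLinearMap.opNorm_le_bound _ (by positivity) fun z => ?_
  refine Completion.induction_on z (isClosed_le (by fun_prop) (by fun_prop)) fun a => ?_
  rw [opMap, ContinuousLinearMap.completion_apply_coe, Completion.norm_coe, Completion.norm_coe]
  exact (TensorProduct.mapL S T).le_of_opNorm_le (TensorProduct.norm_mapL_le S T) a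

theorem star_opMap [CompleteSpace H] [CompleteSpace K] (S : H →L[ℂ] H) (T : K →L[ℂ] K) :
    star (opMap S T) = opMap (star S) (star T) := by
  rw [ContinuousLinearMap.star_eq_adjoint, eq_comm, ContinuousLinearMap.eq_adjoint_iff]
  intro z w
  refine tm_induction (p := fun z => ⟪opMap (star S) (star T) z, w⟫_ℂ = ⟪z, opMap S T w⟫_ℂ)
    (isClosed_eq (by fun_prop) (by fun_prop)) (fun z z' hz hz' => ?_) (fun x y => ?_) z
  · rw [map_add, inner_add_left, inner_add_left, hz, hz']
  refine tm_induction (p := fun w => ⟪opMap (star S) (star T) (tm x y), w⟫_ℂ =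
    ⟪tm x y, opMap S T w⟫_ℂ)
    (isClosed_eq (by fun_prop) (by fun_prop)) (fun z z' hz hz' => ?_) (fun x' y' => ?_) w
  · rw [map_add, inner_add_right, inner_add_right, hz, hz']
  rw [opMap_tm, opMap_tm, inner_tm, inner_tm, ContinuousLinearMap.star_eq_adjoint,
    ContinuousLinearMap.star_eq_adjoint, ContinuousLinearMap.adjoint_inner_left,
    ContinuousLinearMap.adjoint_inner_left]

variable (H K) in
/-- `S ↦ S ⊗ 1`. -/
noncomputable def leftHom [CompleteSpace H] [CompleteSpace K] :
    (H →L[ℂ] H) →⋆ₐ[ℂ] (HilbertTensor H K →L[ℂ] HilbertTensor H K) where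
  toFun S := opMap S 1
  map_one' := opMap_one
  map_mul' S S' := by rw [← opMap_mul, one_mul]
  map_zero' := by
    have := opMap_smul_left (0 : ℂ) (0 : H →L[ℂ] H) (1 : K →L[ℂ] K)
    rwa [zero_smul, zero_smul] at this
  map_add' S S' := opMap_add_left S S' 1
  commutes' c := by
    rw [Algebra.algebraMap_eq_smul_one, Algebra.algebraMap_eq_smul_one, opMap_smul_left,
      opMap_one]
  map_star' S := by rw [star_opMap, star_one]

variable (H K) in
/-- `T ↦ 1 ⊗ T`. -/
noncomputable def rightHom [CompleteSpace H] [CompleteSpace K] :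
    (K →L[ℂ] K) →⋆ₐ[ℂ] (HilbertTensor H K →L[ℂ] HilbertTensor H K) where
  toFun T := opMap 1 T
  map_one' := opMap_one
  map_mul' S S' := by rw [← opMap_mul, one_mul]
  map_zero' := by
    have := opMap_smul_right (0 : ℂ) (1 : H →L[ℂ] H) (0 : K →L[ℂ] K)
    rwa [zero_smul, zero_smul] at this
  map_add' S S' := opMap_add_right 1 S S'
  commutes' c := by
    rw [Algebra.algebraMap_eq_smul_one, Algebra.algebraMap_eq_smul_one, opMap_smul_right,
      opMap_one]
  map_star' S := by rw [star_opMap, star_one]

theorem leftHom_apply [CompleteSpace H] [CompleteSpace K] (S : H →L[ℂ] H) :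
    leftHom H K S = opMap S 1 := rfl

theorem rightHom_apply [CompleteSpace H] [CompleteSpace K] (S : K →L[ℂ] K) :
    rightHom H K S = opMap 1 S := rfl

theorem leftHom_mul_rightHom [CompleteSpace H] [CompleteSpace K] (S : H →L[ℂ] H)
    (T : K →L[ℂ] K) : leftHom H K S * rightHom H K T = opMap S T := by
  rw [leftHom_apply, rightHom_apply, ← opMap_mul, mul_one, one_mul]

end Pool.Agent.Work.MP_7f0ddb_an.H59
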