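import Pool.Agent.Work.MP_7f0ddb_an.H59.Simple
import Pool.Agent.Work.MP_7f0ddb_an.H59.TensorHilb

/-!
# The twisted regular representation on `ℓ²(G)` and tensor products of systems
-/

open scoped InnerProductSpace ENNReal

namespace Pool.Agent.Work.MP_7f0ddb_an.H59

/-- The Hilbert space `ℓ²(X)`. -/
abbrev L2 (X : Type) : Type := lp (fun _ : X => ℂ) 2

section wt

variable {X : Type}

theorem two_toReal_pos : 0 < (2 : ℝ≥0∞).toReal := by norm_num

theorem memℓp_wt (c : X → Circle) (e : X ≃ X) (f : L2 X) :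
    Memℓp (fun x => (c x : ℂ) * f (e x)) 2 := by
  refine memℓp_gen ?_
  have h := (lp.memℓp f).summable two_toReal_pos
  have h2 := (e.summable_iff (f := fun x => ‖f x‖ ^ (2 : ℝ≥0∞).toReal)).2 h
  refine h2.congr fun x => ?_
  simp [Function.comp]

/-- The weighted composition isometry of `ℓ²(X)`. -/
noncomputable def wt (c : X → Circle) (e : X ≃ X) : L2 X →ₗᵢ[ℂ] L2 X where
  toFun f := ⟨fun x => (c x : ℂ) * f (e x), memℓp_wt c e f⟩
  map_add' f g := by
    refine lp.ext (funext fun x => ?_)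
    change (c x : ℂ) * (f + g) (e x) = (c x : ℂ) * f (e x) + (c x : ℂ) * g (e x)
    rw [lp.coeFn_add, Pi.add_apply, mul_add]
  map_smul' a f := by
    refine lp.ext (funext fun x => ?_)
    change (c x : ℂ) * (a • f) (e x) = a * ((c x : ℂ) * f (e x))
    rw [lp.coeFn_smul, Pi.smul_apply, smul_eq_mul, mul_left_comm]
  norm_map' f := by
    rw [lp.norm_eq_tsum_rpow two_toReal_pos, lp.norm_eq_tsum_rpow two_toReal_pos]
    congr 1
    rw [← e.tsum_eq (fun x => ‖f x‖ ^ (2 : ℝ≥0∞).toReal)]
    refine tsum_congr fun x => ?_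
    change ‖(c x : ℂ) * f (e x)‖ ^ _ = _
    simp

theorem wt_apply (c : X → Circle) (e : X ≃ X) (f : L2 X) (x : X) :
    wt c e f x = (c x : ℂ) * f (e x) := rfl

/-- The weighted composition operator. -/
noncomputable def wtL (c : X → Circle) (e : X ≃ X) : L2 X →L[ℂ] L2 X :=
  (wt c e).toContinuousLinearMap

theorem wtL_apply (c : X → Circle) (e : X ≃ X) (f : L2 X) (x : X) :
    wtL c e f x = (c x : ℂ) * f (e x) := rfl

theorem star_wtL_mul (c : X → Circle) (e : X ≃ X) : star (wtL c e) * wtL c e = 1 := by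
  ext1 f
  refine ext_inner_left ℂ fun g => ?_
  rw [mul_apply_eq_comp, ContinuousLinearMap.star_eq_adjoint,
    ContinuousLinearMap.adjoint_inner_right]
  exact (wt c e).inner_map_map g f

theorem wtL_ext {S T : L2 X →L[ℂ] L2 X} (h : ∀ f x, S f x = T f x) : S = T := by
  ext1 f
  exact lp.ext (funext fun x => h f x)

theorem wtL_mul (c c' : X → Circle) (e e' : X ≃ X) :
    wtL c e * wtL c' e' = wtL (fun x => c x * c' (e x)) (e.trans e') := by
  refine wtL_ext fun f x => ?_
  rw [mul_apply_eq_comp, wtL_apply, wtL_apply, wtL_apply, Circle.coe_mul, mul_assoc]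
  rfl

theorem wtL_one : wtL (fun _ : X => (1 : Circle)) (Equiv.refl X) = 1 := by
  refine wtL_ext fun f x => ?_
  rw [wtL_apply, Circle.coe_one, one_mul]
  rfl

theorem wtL_mul_star (c : X → Circle) (e : X ≃ X) : wtL c e * star (wtL c e) = 1 := by
  have h : wtL c e * wtL (fun x => (c (e.symm x))⁻¹) e.symm = 1 := by
    rw [wtL_mul, ← wtL_one]
    congr 1
    · funext x; simp
    · simp
  have h2 : star (wtL c e) = wtL (fun x => (c (e.symm x))⁻¹) e.symm := by
    calc star (wtL c e) = star (wtL c e) * (wtL c e * wtL (fun x => (c (e.symm x))⁻¹) e.symm) := by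
          rw [h, mul_one]
      _ = _ := by rw [← mul_assoc, star_wtL_mul, one_mul]
  rw [h2, h]

end wt

section regular

variable {G : Type} [CommGroup G]

set_option linter.unusedSectionVars false

open Classical in
/-- The basis vectors of `ℓ²(G)`. -/
noncomputable def δ (g : G) : L2 G := lp.single 2 g (1 : ℂ)

open Classical in
theorem δ_apply (g x : G) : δ g x = if x = g then 1 else 0 := by
  rw [δ, lp.single_apply]
  by_cases h : x = g
  · subst h; simp
  · simp [h, Pi.single_eq_of_ne]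

theorem norm_δ (g : G) : ‖δ g‖ = 1 := by
  classical
  rw [δ, lp.norm_single (by norm_num)]
  simp

theorem inner_δ (g : G) (f : L2 G) : ⟪δ g, f⟫_ℂ = f g := by
  classical
  rw [δ, lp.inner_single_left]
  simp

theorem dense_δ : Dense (Submodule.span ℂ (Set.range (δ : G → L2 G)) : Set (L2 G)) := by
  classical
  intro f
  have h := lp.hasSum_single (p := 2) (by norm_num) f
  refine mem_closure_of_tendsto h (Filter.Eventually.of_forall fun S => ?_)
  refine Submodule.sum_mem _ fun g _ => ?_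
  have : lp.single 2 g (f g) = f g • δ g := by
    rw [δ, ← lp.single_smul, smul_eq_mul, mul_one]
  rw [this]
  exact Submodule.smul_mem _ _ (Submodule.subset_span ⟨g, rfl⟩)

variable (ω : G →* G →* Circle)

/-- The twisted regular representation `u_g δ_x = ω(g, x) δ_{gx}`. -/
noncomputable def reg (g : G) : L2 G →L[ℂ] L2 G :=
  wtL (fun x => ω g (g⁻¹ * x)) (Equiv.mulLeft g⁻¹)

theorem reg_apply (g : G) (f : L2 G) (x : G) :
    reg ω g f x = (ω g (g⁻¹ * x) : ℂ) * f (g⁻¹ * x) := rfl

theorem reg_mul (g h : G) : reg ω g * reg ω h = (ω g h : ℂ) • reg ω (g * h) := by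
  refine wtL_ext fun f x => ?_
  rw [mul_apply_eq_comp, reg_apply, reg_apply, smul_apply, lp.coeFn_smul, Pi.smul_apply, reg_apply,
    smul_eq_mul]
  have e1 : h⁻¹ * (g⁻¹ * x) = (g * h)⁻¹ * x := by group
  have e0 : g⁻¹ * x = h * ((g * h)⁻¹ * x) := by
    rw [mul_inv_rev]; group
  have e2 : ω g (g⁻¹ * x) * ω h (h⁻¹ * (g⁻¹ * x)) = ω g h * ω (g * h) ((g * h)⁻¹ * x) := by
    rw [e1, e0, map_mul, map_mul ω, MonoidHom.mul_apply, mul_assoc]
  have e4 := congrArg (fun z : Circle => (z : ℂ)) e2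
  simp only [Circle.coe_mul] at e4
  rw [e1] at e4 ⊢
  rw [← mul_assoc, e4, mul_assoc]

theorem reg_δ_one (g : G) : reg ω g (δ 1) = δ g := by
  classical
  refine lp.ext (funext fun x => ?_)
  rw [reg_apply, δ_apply, δ_apply]
  by_cases h : x = g
  · subst h; simp
  · have h2 : g⁻¹ * x ≠ 1 := fun h' => h (by rw [inv_mul_eq_one] at h'; exact h'.symm)
    rw [if_neg h, if_neg h2, mul_zero]

/-- The twisted regular representation on `ℓ²(G)` as a system. -/
noncomputable def regSys : TwSys G (L2 G) where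
  ω := ω
  u := reg ω
  star_u_mul g := star_wtL_mul _ _
  u_mul := reg_mul ω
  ξ := δ 1
  norm_ξ := norm_δ 1
  inner_ξ g hg := by
    classical
    rw [reg_δ_one, inner_δ, δ_apply, if_neg hg.symm]
  dense := by
    simp only [reg_δ_one]
    exact dense_δ

/-- The diagonal unitary of a character. -/
noncomputable def diagU : (G →* Circle) →* unitary (L2 G →L[ℂ] L2 G) where
  toFun χ := ⟨wtL χ (Equiv.refl G), star_wtL_mul _ _, wtL_mul_star _ _⟩
  map_one' := Subtype.ext wtL_one
  map_mul' χ χ' := Subtype.ext (by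
    change wtL (⇑(χ * χ')) (Equiv.refl G) = wtL χ (Equiv.refl G) * wtL χ' (Equiv.refl G)
    rw [wtL_mul]
    rfl)

theorem coe_diagU (χ : G →* Circle) :
    ((diagU χ : unitary (L2 G →L[ℂ] L2 G)) : L2 G →L[ℂ] L2 G) = wtL χ (Equiv.refl G) := rfl

theorem diagU_conj (χ : G →* Circle) (g : G) :
    (diagU χ : L2 G →L[ℂ] L2 G) * (regSys ω).u g * star (diagU χ : L2 G →L[ℂ] L2 G) =
      (χ g : ℂ) • (regSys ω).u g := by
  have hu : (regSys ω).u g = reg ω g := rfl
  rw [coe_diagU, hu]
  have h : wtL χ (Equiv.refl G) * reg ω g = (χ g : ℂ) • (reg ω g * wtL χ (Equiv.refl G)) := by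
    refine wtL_ext fun f x => ?_
    rw [smul_apply, lp.coeFn_smul, Pi.smul_apply, mul_apply_eq_comp, mul_apply_eq_comp,
      wtL_apply, reg_apply, reg_apply, wtL_apply, smul_eq_mul, Equiv.refl_apply]
    have : (χ x : ℂ) = χ g * χ (g⁻¹ * x) := by
      rw [← Circle.coe_mul, ← map_mul, mul_inv_cancel_left]
    rw [this, Equiv.refl_apply]
    ring
  rw [h, smul_mul_assoc, mul_assoc, wtL_mul_star, mul_one]

end regular

end Pool.Agent.Work.MP_7f0ddb_an.H59
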