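import Pool.Agent.Work.MP_7f0ddb_an.H59.Basic

/-!
# Rokhlin projections from symmetries
-/

namespace Pool.Agent.Work.MP_7f0ddb_an.H59

/-- The complex number `±1`. -/
def uc (ε : ℤˣ) : ℂ := ((ε : ℤ) : ℂ)

theorem uc_one : uc 1 = 1 := by simp [uc]

theorem uc_neg_one : uc (-1) = -1 := by simp [uc]

theorem uc_mul (ε ε' : ℤˣ) : uc (ε * ε') = uc ε * uc ε' := by simp [uc]

theorem uc_mul_self (ε : ℤˣ) : uc ε * uc ε = 1 := by
  rw [← uc_mul, Int.units_mul_self, uc_one]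

theorem star_uc (ε : ℤˣ) : star (uc ε) = uc ε := by
  simp [uc]

theorem uc_add_of_ne {ε ε' : ℤˣ} (h : ε ≠ ε') : uc ε + uc ε' = 0 := by
  rcases Int.units_eq_one_or ε with rfl | rfl <;> rcases Int.units_eq_one_or ε' with rfl | rfl
  · exact absurd rfl h
  · rw [uc_one, uc_neg_one]; ring
  · rw [uc_one, uc_neg_one]; ring
  · exact absurd rfl h

section

variable {D : Type} [CStarAlgebra D]

/-- The spectral projections of a symmetry. -/
noncomputable def pr (r : D) (ε : ℤˣ) : D := (2⁻¹ : ℂ) • (1 + uc ε • r)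

theorem star_pr {r : D} (hr : star r = r) (ε : ℤˣ) : star (pr r ε) = pr r ε := by
  rw [pr, star_smul, star_add, star_smul, star_one, hr, star_uc]
  congr 1
  simp

theorem pr_mul_pr {r : D} (hr : r * r = 1) (ε ε' : ℤˣ) :
    pr r ε * pr r ε' = (4⁻¹ * (1 + uc ε * uc ε') : ℂ) • (1 : D) +
      (4⁻¹ * (uc ε + uc ε') : ℂ) • r := by
  rw [pr, pr, smul_mul_smul_comm, add_mul, one_mul, mul_add, mul_one, smul_mul_smul_comm, hr]
  module

theorem pr_mul_self {r : D} (hr : r * r = 1) (ε : ℤˣ) : pr r ε * pr r ε = pr r ε := by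
  rw [pr_mul_pr hr, uc_mul_self, pr]
  module

theorem pr_mul_of_ne {r : D} (hr : r * r = 1) {ε ε' : ℤˣ} (h : ε ≠ ε') :
    pr r ε * pr r ε' = 0 := by
  have h1 : uc ε * uc ε' = -1 := by
    have h2 : uc ε' = - uc ε := by
      have := uc_add_of_ne h
      linear_combination this
    rw [h2, mul_neg, uc_mul_self]
  rw [pr_mul_pr hr, uc_add_of_ne h, h1]
  simp

theorem pr_add (r : D) : pr r 1 + pr r (-1) = 1 := by
  rw [pr, pr, uc_one, uc_neg_one]
  module

theorem sum_pr (r : D) : ∑ ε : ℤˣ, pr r ε = 1 := by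
  have h : (Finset.univ : Finset ℤˣ) = {1, -1} := by decide
  rw [h, Finset.sum_pair (by decide)]
  exact pr_add r

theorem commute_pr {r a : D} (h : Commute r a) (ε : ℤˣ) : Commute (pr r ε) a := by
  unfold pr
  exact ((Commute.one_left a).add_left (h.smul_left _)).smul_left _

theorem map_pr {φ : D ≃⋆ₐ[ℂ] D} {r : D} {η : ℤˣ} (h : φ r = uc η • r) (ε : ℤˣ) :
    φ (pr r ε) = pr r (η * ε) := by
  rw [pr, pr, map_smul, map_add, map_smul, map_one, h, smul_smul, uc_mul, mul_comm (uc ε)]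

/-- Commuting with a close approximation. -/
theorem norm_comm_lt {e a c : D} {ε : ℝ} (he : ‖e‖ ≤ 1) (hc : Commute e c)
    (hac : ‖a - c‖ < ε / 2) : ‖e * a - a * e‖ < ε := by
  have h1 : e * a - a * e = e * (a - c) - (a - c) * e := by
    rw [mul_sub, sub_mul, hc.eq]; abel
  rw [h1]
  calc ‖e * (a - c) - (a - c) * e‖ ≤ ‖e * (a - c)‖ + ‖(a - c) * e‖ := norm_sub_le _ _
    _ ≤ ‖e‖ * ‖a - c‖ + ‖a - c‖ * ‖e‖ := add_le_add (norm_mul_le _ _) (norm_mul_le _ _)
    _ ≤ 1 * ‖a - c‖ + ‖a - c‖ * 1 := by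
        gcongr
    _ < ε := by linarith

/-- Rokhlin property for `ℤ/2 × ℤ/2` from commuting symmetries. -/
theorem rokhlin_of_symmetries (γ : ℤˣ × ℤˣ →* (D ≃⋆ₐ[ℂ] D)) (Dd : Set D) (hD : Dense Dd)
    (h : ∀ S : Finset D, (∀ c ∈ S, c ∈ Dd) → ∃ s T : D, star s = s ∧ star T = T ∧ s * s = 1 ∧
      T * T = 1 ∧ Commute s T ∧ (∀ k, γ k s = uc k.1 • s) ∧ (∀ k, γ k T = uc k.2 • T) ∧
      ∀ c ∈ S, Commute s c ∧ Commute T c) : HasRokhlinProperty γ := by
  classical
  intro F ε hε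
  have happ : ∀ a : D, ∃ c ∈ Dd, ‖a - c‖ < ε / 2 := by
    intro a
    have := Metric.mem_closure_iff.1 (hD a) (ε / 2) (by positivity)
    obtain ⟨c, hc, hac⟩ := this
    exact ⟨c, hc, by rwa [dist_eq_norm] at hac⟩
  choose c hc hac using happ
  obtain ⟨s, T, hs, hT, hss, hTT, hsT, hγs, hγT, hcomm⟩ := h (F.image c) (by
    intro d hd
    obtain ⟨a, -, rfl⟩ := Finset.mem_image.1 hd
    exact hc a)
  have hproj : ∀ k : ℤˣ × ℤˣ, IsStarProjection (pr s k.1 * pr T k.2) := by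
    intro k
    have hc1 : Commute (pr s k.1) (pr T k.2) := (commute_pr (commute_pr hsT.symm k.2).symm k.1)
    constructor
    · rw [IsIdempotentElem, hc1.symm.mul_mul_mul_comm, pr_mul_self hss, pr_mul_self hTT]
    · rw [IsSelfAdjoint, star_mul, star_pr hs, star_pr hT, hc1.eq]
  refine ⟨fun k => pr s k.1 * pr T k.2, hproj, ?_, ?_, ?_, ?_⟩
  · intro k l hkl
    have hc1 : Commute (pr s l.1) (pr T k.2) := (commute_pr (commute_pr hsT.symm k.2).symm l.1)
    change pr s k.1 * pr T k.2 * (pr s l.1 * pr T l.2) = 0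
    rw [hc1.symm.mul_mul_mul_comm]
    by_cases h1 : k.1 = l.1
    · have h2 : k.2 ≠ l.2 := fun h2 => hkl (Prod.ext h1 h2)
      rw [pr_mul_of_ne hTT h2, mul_zero]
    · rw [pr_mul_of_ne hss h1, zero_mul]
  · intro k l
    change ‖γ k (pr s l.1 * pr T l.2) - pr s (k * l).1 * pr T (k * l).2‖ < ε
    rw [map_mul, map_pr (hγs k), map_pr (hγT k), Prod.fst_mul, Prod.snd_mul, sub_self, norm_zero]
    exact hε
  · intro k a ha
    refine norm_comm_lt (hproj k).norm_le ?_ (hac a)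
    obtain ⟨h1, h2⟩ := hcomm (c a) (Finset.mem_image_of_mem c ha)
    exact (commute_pr h1 _).mul_left (commute_pr h2 _)
  · rw [Fintype.sum_prod_type]
    change ∑ x : ℤˣ, ∑ y : ℤˣ, pr s x * pr T y = 1
    rw [← Finset.sum_mul_sum, sum_pr, sum_pr, one_mul]

/-- Rokhlin property for `ℤ/2` from symmetries. -/
theorem rokhlin_of_symmetry (γ : ℤˣ →* (D ≃⋆ₐ[ℂ] D)) (Dd : Set D) (hD : Dense Dd)
    (h : ∀ S : Finset D, (∀ c ∈ S, c ∈ Dd) → ∃ T : D, star T = T ∧
      T * T = 1 ∧ (∀ k, γ k T = uc k • T) ∧ ∀ c ∈ S, Commute T c) : HasRokhlinProperty γ := by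
  classical
  intro F ε hε
  have happ : ∀ a : D, ∃ c ∈ Dd, ‖a - c‖ < ε / 2 := by
    intro a
    have := Metric.mem_closure_iff.1 (hD a) (ε / 2) (by positivity)
    obtain ⟨c, hc, hac⟩ := this
    exact ⟨c, hc, by rwa [dist_eq_norm] at hac⟩
  choose c hc hac using happ
  obtain ⟨T, hT, hTT, hγT, hcomm⟩ := h (F.image c) (by
    intro d hd
    obtain ⟨a, -, rfl⟩ := Finset.mem_image.1 hd
    exact hc a)
  have hproj : ∀ k : ℤˣ, IsStarProjection (pr T k) := by
    intro k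
    constructor
    · exact pr_mul_self hTT k
    · exact star_pr hT k
  refine ⟨fun k => pr T k, hproj, fun k l hkl => pr_mul_of_ne hTT hkl, ?_, ?_, sum_pr T⟩
  · intro k l
    change ‖γ k (pr T l) - pr T (k * l)‖ < ε
    rw [map_pr (hγT k), sub_self, norm_zero]
    exact hε
  · intro k a ha
    exact norm_comm_lt (hproj k).norm_le (commute_pr (hcomm (c a)
      (Finset.mem_image_of_mem c ha)) _) (hac a)

/-- The flip symmetry. -/
theorem flip_symmetry {W X Z : D} (hW : star W * W = 1) (hW' : W * star W = 1)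
    (hX : star X = X) (hXX : X * X = 1) (hZ : star Z = Z) (hZZ : Z * Z = 1)
    (hXZ : X * Z = -(Z * X)) (hWX : Commute W X) (hWZ : Commute W Z) :
    star (X * (W * pr Z 1 + star W * pr Z (-1))) = X * (W * pr Z 1 + star W * pr Z (-1)) ∧
    (X * (W * pr Z 1 + star W * pr Z (-1))) * (X * (W * pr Z 1 + star W * pr Z (-1))) = 1 := by
  have hsWX : Commute (star W) X := by
    have := hWX.star_star
    rwa [hX] at this
  have hsWZ : Commute (star W) Z := by
    have := hWZ.star_star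
    rwa [hZ] at this
  have hprX : ∀ ε : ℤˣ, pr Z ε * X = X * pr Z (-ε) := by
    intro ε
    have h1 : Z * X = -(X * Z) := by rw [hXZ, neg_neg]
    have h2 : uc (-ε) = -uc ε := by simp [uc]
    rw [pr, pr, smul_mul_assoc, mul_smul_comm, add_mul, mul_add, smul_mul_assoc, mul_smul_comm,
      h1, h2, one_mul, mul_one]
    module
  have hWp : ∀ ε, Commute W (pr Z ε) := fun ε => (commute_pr hWZ.symm ε).symm
  have hsWp : ∀ ε, Commute (star W) (pr Z ε) := fun ε => (commute_pr hsWZ.symm ε).symm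
  have hneg : (- -1 : ℤˣ) = 1 := by decide
  set Q := W * pr Z 1 + star W * pr Z (-1) with hQ
  set Q' := W * pr Z (-1) + star W * pr Z 1 with hQ'
  have hstarQ : star Q * X = X * Q := by
    rw [hQ, star_add, star_mul, star_mul, star_star, star_pr hZ, star_pr hZ,
      ← (hsWp 1).eq, ← (hWp (-1)).eq, add_mul, mul_assoc, mul_assoc, hprX, hprX, hneg,
      ← mul_assoc, ← mul_assoc, hsWX.eq, hWX.eq, mul_add, mul_assoc, mul_assoc]
    abel
  have hQX : Q * X = X * Q' := by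
    rw [hQ, hQ', add_mul, mul_assoc, mul_assoc, hprX, hprX, hneg, ← mul_assoc, ← mul_assoc,
      hWX.eq, hsWX.eq, mul_add, mul_assoc, mul_assoc]
  have hQ'Q : Q' * Q = 1 := by
    have e1 : W * pr Z (-1) * (W * pr Z 1) = 0 := by
      rw [(hWp (-1)).symm.mul_mul_mul_comm, pr_mul_of_ne hZZ (by decide), mul_zero]
    have e2 : W * pr Z (-1) * (star W * pr Z (-1)) = pr Z (-1) := by
      rw [(hsWp (-1)).symm.mul_mul_mul_comm, pr_mul_self hZZ, hW', one_mul]
    have e3 : star W * pr Z 1 * (W * pr Z 1) = pr Z 1 := by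
      rw [(hWp 1).symm.mul_mul_mul_comm, pr_mul_self hZZ, hW, one_mul]
    have e4 : star W * pr Z 1 * (star W * pr Z (-1)) = 0 := by
      rw [(hsWp 1).symm.mul_mul_mul_comm, pr_mul_of_ne hZZ (by decide), mul_zero]
    rw [hQ, hQ', add_mul, mul_add, mul_add, e1, e2, e3, e4, zero_add, add_zero, add_comm]
    exact pr_add Z
  constructor
  · rw [star_mul, hX, hstarQ]
  · rw [mul_assoc, ← mul_assoc Q, hQX, ← mul_assoc, ← mul_assoc, hXX, one_mul, hQ'Q]

end

end Pool.Agent.Work.MP_7f0ddb_an.H59
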