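import Pool.Agent.Work.MP_7f0ddb_an.H59.Concrete
import Pool.Agent.Work.MP_7f0ddb_an.H59.Rokhlin

/-!
# The tensor product action has the Rokhlin property
-/

open scoped InnerProductSpace TensorProduct

namespace Pool.Agent.Work.MP_7f0ddb_an.H59

namespace TwSys

variable {G : Type} [CommGroup G] {E : Type} [NormedAddCommGroup E]
  [InnerProductSpace ℂ E] [CompleteSpace E] (s : TwSys G E)

theorem commute_U {g h : G} (hgh : s.ω g h = s.ω h g) : Commute (s.U g) (s.U h) := by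
  rw [Commute, SemiconjBy, s.U_mul, s.U_mul, hgh, mul_comm g h]

theorem U_mul_self {g : G} (h1 : s.ω g g = 1) (h2 : g * g = 1) : s.U g * s.U g = 1 := by
  rw [s.U_mul, h1, h2, s.U_one]
  simp

theorem star_U_of_self {g : G} (h : s.U g * s.U g = 1) : star (s.U g) = s.U g := by
  calc star (s.U g) = star (s.U g) * (s.U g * s.U g) := by rw [h, mul_one]
    _ = s.U g := by rw [← mul_assoc, s.star_U_mul, one_mul]

/-- The dense set of finite combinations. -/
def fin : Set s.alg := {b | ∃ f : G →₀ ℂ, b = f.sum fun g a => a • s.U g}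

theorem dense_fin : Dense s.fin := by
  intro b
  rw [Metric.mem_closure_iff]
  intro ε hε
  obtain ⟨f, hf⟩ := s.exists_finsupp_approx b hε
  exact ⟨_, ⟨f, rfl⟩, by rw [dist_eq_norm]; exact hf⟩

/-- Finitely many elements of `fin` are combinations of finitely many `U g`. -/
theorem exists_finset (S : Finset s.alg) (hS : ∀ c ∈ S, c ∈ s.fin) :
    ∃ T : Finset G, ∀ r : s.alg, (∀ g ∈ T, Commute r (s.U g)) → ∀ c ∈ S, Commute r c := by
  classical
  have h : ∀ c : s.alg, ∃ T : Finset G, c ∈ s.fin →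
      ∀ r : s.alg, (∀ g ∈ T, Commute r (s.U g)) → Commute r c := by
    intro c
    by_cases hc : c ∈ s.fin
    · obtain ⟨f, rfl⟩ := hc
      refine ⟨f.support, fun _ r hr => ?_⟩
      exact Commute.sum_right _ _ _ fun g hg => (hr g hg).smul_right _
    · exact ⟨∅, fun h => absurd h hc⟩
  choose T hT using h
  refine ⟨S.biUnion T, fun r hr c hc => hT c (hS c hc) r fun g hg => hr g ?_⟩
  exact Finset.mem_biUnion.2 ⟨c, hc, hg⟩

end TwSys

theorem uc_eq_coe_sgn (ε : ℤˣ) : uc ε = ((if ε = 1 then 1 else sgn 1 : Circle) : ℂ) := by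
  rcases Int.units_eq_one_or ε with rfl | rfl
  · rw [if_pos rfl, uc_one, Circle.coe_one]
  · rw [if_neg (by decide), uc_neg_one, coe_sgn_one]

theorem coe_cA_odd (ε : ℤˣ) (n : ℕ) :
    (cA ε ((Multiplicative.ofAdd (3 ^ n : ℤ), 1) : GA) : ℂ) = uc ε := by
  rcases Int.units_eq_one_or ε with rfl | rfl
  · rw [cA, map_one, uc_one]
    simp
  · rw [cA, invHom_neg_one, uc_neg_one]
    change ((sgn 1 ^ (3 ^ n : ℤ) : Circle) : ℂ) = -1
    rw [Circle.coe_zpow, coe_sgn_one]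
    have : Odd (3 ^ n : ℤ) := Odd.pow (by decide)
    exact this.neg_one_zpow

theorem cA_one (ε : ℤˣ) : cA ε 1 = 1 := map_one _

theorem cB_one (ε : ℤˣ) : cB ε 1 = 1 := map_one _

theorem cB_eq_one (ε : ℤˣ) {g : GB} (h : χB g = 1) : cB ε g = 1 := by
  rcases Int.units_eq_one_or ε with rfl | rfl
  · rw [cB, map_one]; rfl
  · rw [cB, invHom_neg_one, h]

theorem coe_cB_gX_true (ε : ℤˣ) (n : ℕ) : (cB ε (gX (n, true)) : ℂ) = uc ε := by
  rcases Int.units_eq_one_or ε with rfl | rfl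
  · rw [cB, map_one, uc_one]
    simp
  · rw [cB, invHom_neg_one, uc_neg_one, χB_gX_true, coe_sgn_one]

theorem gX_mul_self (i : ℕ × Bool) : gX i * gX i = 1 := by
  refine Prod.ext ?_ (one_mul _)
  change Multiplicative.ofAdd (Finsupp.single i (1 : ZMod 2)) *
    Multiplicative.ofAdd (Finsupp.single i (1 : ZMod 2)) = 1
  rw [← ofAdd_add, ← Finsupp.single_add, CharTwo.add_self_eq_zero, Finsupp.single_zero, ofAdd_zero]

theorem gZ_mul_self (i : ℕ × Bool) : gZ i * gZ i = 1 := by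
  refine Prod.ext (one_mul _) ?_
  change Multiplicative.ofAdd (Finsupp.single i (1 : ZMod 2)) *
    Multiplicative.ofAdd (Finsupp.single i (1 : ZMod 2)) = 1
  rw [← ofAdd_add, ← Finsupp.single_add, CharTwo.add_self_eq_zero, Finsupp.single_zero, ofAdd_zero]

theorem sysD_ω (p q : GA × GB) : sysD.ω p q = ωA p.1 q.1 * ωB p.2 q.2 := rfl

theorem actD_U (k : ℤˣ × ℤˣ) (p : GA × GB) :
    actD k (sysD.U p) = ((cA k.1 p.1 * cB k.2 p.2 : Circle) : ℂ) • sysD.U p :=
  TwSys.action_U (s := sysD) (TwSys.tensorV_conj VA_conj VB_conj) k p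

theorem actB_U (k : ℤˣ) (p : GB) : actB k (sysB.U p) = (cB k p : ℂ) • sysB.U p :=
  TwSys.action_U (s := sysB) VB_conj k p

theorem actA_U (k : ℤˣ) (p : GA) : actA k (sysA.U p) = (cA k p : ℂ) • sysA.U p :=
  TwSys.action_U (s := sysA) VA_conj k p

/-- A free index. -/
theorem exists_index (T : Finset GB) : ∃ N : ℕ, ∀ g ∈ T, ∀ b : Bool,
    Multiplicative.toAdd g.1 (N, b) = 0 ∧ Multiplicative.toAdd g.2 (N, b) = 0 := by
  classical
  set S : Finset ℕ := T.biUnion fun g => ((Multiplicative.toAdd g.1).support ∪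
    (Multiplicative.toAdd g.2).support).image Prod.fst with hS
  obtain ⟨N, hN⟩ := Infinite.exists_notMem_finset S
  refine ⟨N, fun g hg b => ?_⟩
  constructor
  · by_contra h
    refine hN (Finset.mem_biUnion.2 ⟨g, hg, Finset.mem_image.2 ⟨(N, b), ?_, rfl⟩⟩)
    exact Finset.mem_union_left _ (Finsupp.mem_support_iff.2 h)
  · by_contra h
    refine hN (Finset.mem_biUnion.2 ⟨g, hg, Finset.mem_image.2 ⟨(N, b), ?_, rfl⟩⟩)
    exact Finset.mem_union_right _ (Finsupp.mem_support_iff.2 h)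

/-- A common exponent. -/
theorem exists_exponent (T : Finset GA) : ∃ n : ℕ, ∀ g ∈ T, (g.2 : Circle) ^ 3 ^ n = 1 := by
  classical
  induction T using Finset.induction_on with
  | empty => exact ⟨0, by simp⟩
  | insert g T hg ih =>
    obtain ⟨n, hn⟩ := ih
    obtain ⟨m, hm⟩ := D3_pow g.2
    refine ⟨n + m, fun h hh => ?_⟩
    rcases Finset.mem_insert.1 hh with rfl | hh
    · rw [add_comm, pow_add, pow_mul, hm, one_pow]
    · rw [pow_add, pow_mul, hn h hh, one_pow]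

/-- The Rokhlin property for `ℤ/2 × ℤ/2` from suitable group elements. -/
theorem TwSys.rokhlin_of_elements {G : Type} [CommGroup G] {E : Type} [NormedAddCommGroup E]
    [InnerProductSpace ℂ E] [CompleteSpace E] (s : TwSys G E)
    (γ : ℤˣ × ℤˣ →* (s.alg ≃⋆ₐ[ℂ] s.alg)) (c : ℤˣ × ℤˣ → G → ℂ)
    (hγ : ∀ k g, γ k (s.U g) = c k g • s.U g)
    (h : ∀ T : Finset G, ∃ w x z r : G, x * x = 1 ∧ z * z = 1 ∧ r * r = 1 ∧
      s.ω x x = 1 ∧ s.ω z z = 1 ∧ s.ω r r = 1 ∧ s.ω x z = 1 ∧ s.ω z x = sgn 1 ∧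
      s.ω w x = s.ω x w ∧ s.ω w z = s.ω z w ∧ s.ω w r = s.ω r w ∧ s.ω x r = s.ω r x ∧
      s.ω z r = s.ω r z ∧ (∀ g ∈ T, s.ω w g = s.ω g w ∧ s.ω x g = s.ω g x ∧
        s.ω z g = s.ω g z ∧ s.ω r g = s.ω g r) ∧
      ∀ k, c k w = uc k.1 ∧ c k x = 1 ∧ c k z = 1 ∧ c k r = uc k.2) :
    HasRokhlinProperty γ := by
  classical
  refine rokhlin_of_symmetries γ s.fin s.dense_fin fun S hS => ?_
  obtain ⟨T, hT⟩ := s.exists_finset S hS
  obtain ⟨w, x, z, r, hxx, hzz, hrr, hωx, hωz, hωr, hxz, hzx, hwx, hwz, hwr, hxr, hzr, hg, hc⟩ :=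
    h T
  have hXX : s.U x * s.U x = 1 := s.U_mul_self hωx hxx
  have hZZ : s.U z * s.U z = 1 := s.U_mul_self hωz hzz
  have hRR : s.U r * s.U r = 1 := s.U_mul_self hωr hrr
  have hXs := s.star_U_of_self hXX
  have hZs := s.star_U_of_self hZZ
  have hRs := s.star_U_of_self hRR
  have hXZ : s.U x * s.U z = -(s.U z * s.U x) := by
    rw [s.U_mul, s.U_mul, hxz, hzx, coe_sgn_one, Circle.coe_one, one_smul, neg_smul,
      one_smul, neg_neg, mul_comm]
  have hstar : ∀ q, s.ω w q = s.ω q w → Commute (star (s.U w)) (s.U q) := by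
    intro q hq
    have h1 := s.commute_U hq
    have h2 : star (s.U w) * (s.U w * s.U q) * star (s.U w) =
        star (s.U w) * (s.U q * s.U w) * star (s.U w) := by rw [h1.eq]
    rw [← mul_assoc, s.star_U_mul, one_mul, mul_assoc, mul_assoc, s.U_mul_star, mul_one] at h2
    exact h2.symm
  have hWR := s.commute_U hwr
  have hsWR := hstar r hwr
  have hXR := s.commute_U hxr
  have hZR := s.commute_U hzr
  obtain ⟨hs1, hs2⟩ := flip_symmetry (s.star_U_mul w) (s.U_mul_star w) hXs hXX hZs hZZ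
    hXZ (s.commute_U hwx) (s.commute_U hwz)
  refine ⟨s.U x * (s.U w * pr (s.U z) 1 + star (s.U w) * pr (s.U z) (-1)), s.U r, hs1, hRs, hs2,
    hRR, ?_, ?_, ?_, ?_⟩
  · exact hXR.mul_left ((hWR.mul_left (commute_pr hZR _)).add_left
      (hsWR.mul_left (commute_pr hZR _)))
  · intro k
    obtain ⟨hcw, hcx, hcz, -⟩ := hc k
    have h1 : γ k (s.U w) = uc k.1 • s.U w := by rw [hγ, hcw]
    have h2 : γ k (star (s.U w)) = uc k.1 • star (s.U w) := by
      rw [map_star, h1, star_smul, star_uc]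
    have h3 : γ k (s.U x) = s.U x := by rw [hγ, hcx, one_smul]
    have h4 : γ k (s.U z) = uc 1 • s.U z := by rw [hγ, hcz, uc_one]
    rw [map_mul, map_add, map_mul, map_mul, map_pr h4, map_pr h4, h1, h2, h3, one_mul, one_mul,
      smul_mul_assoc, smul_mul_assoc, ← smul_add, mul_smul_comm]
  · intro k
    obtain ⟨-, -, -, hcr⟩ := hc k
    rw [hγ, hcr]
  · intro c hc
    constructor
    · refine hT _ (fun g hgT => ?_) c hc
      obtain ⟨h1, h2, h3, -⟩ := hg g hgT
      exact (s.commute_U h2).mul_left (((s.commute_U h1).mul_left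
        (commute_pr (s.commute_U h3) _)).add_left
        ((hstar g h1).mul_left (commute_pr (s.commute_U h3) _)))
    · exact hT _ (fun g hgT => s.commute_U (hg g hgT).2.2.2) c hc

theorem ωA_one_left (q : GA) : ωA 1 q = 1 := by rw [map_one]; rfl

theorem rokhlin_actD : HasRokhlinProperty actD := by
  classical
  refine TwSys.rokhlin_of_elements sysD actD
    (fun k p => ((cA k.1 p.1 * cB k.2 p.2 : Circle) : ℂ)) actD_U fun T => ?_
  obtain ⟨n, hn⟩ := exists_exponent (T.image Prod.fst)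
  obtain ⟨N, hN⟩ := exists_index (T.image Prod.snd)
  have hωW : ∀ q : GA × GB, sysD.ω ((Multiplicative.ofAdd (3 ^ n : ℤ), 1), 1) q = 1 := by
    intro q
    rw [sysD_ω, ωA_apply]
    change ((1 : D3) : Circle) ^ _ * ωB 1 q.2 = 1
    rw [map_one ωB, MonoidHom.one_apply, OneMemClass.coe_one, one_zpow, one_mul]
  have hωW' : ∀ q : GA × GB, (q.1.2 : Circle) ^ 3 ^ n = 1 →
      sysD.ω q ((Multiplicative.ofAdd (3 ^ n : ℤ), 1), 1) = 1 := by
    intro q hq
    rw [sysD_ω, ωA_apply]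
    change (q.1.2 : Circle) ^ (3 ^ n : ℤ) * ωB q.2 1 = 1
    rw [map_one, mul_one]
    exact_mod_cast hq
  have h1 : ((1 : D3) : Circle) ^ 3 ^ n = 1 := by rw [OneMemClass.coe_one, one_pow]
  refine ⟨((Multiplicative.ofAdd (3 ^ n : ℤ), 1), 1), (1, gX (N, false)), (1, gZ (N, false)),
    (1, gX (N, true)), Prod.ext (one_mul _) (gX_mul_self _), Prod.ext (one_mul _) (gZ_mul_self _),
    Prod.ext (one_mul _) (gX_mul_self _), ?_, ?_, ?_, ?_, ?_, ?_, ?_, ?_, ?_, ?_, ?_, ?_⟩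
  · rw [sysD_ω, ωB_gX_left, ωA_one_left, one_mul]
  · rw [sysD_ω, ωB_gZ_right, ωA_one_left, one_mul]
  · rw [sysD_ω, ωB_gX_left, ωA_one_left, one_mul]
  · rw [sysD_ω, ωB_gX_left, ωA_one_left, one_mul]
  · rw [sysD_ω, ωB_gZ_left, ωA_one_left, one_mul]
    change sgn (Finsupp.single (N, false) (1 : ZMod 2) (N, false)) = sgn 1
    rw [Finsupp.single_eq_same]
  · rw [hωW, hωW' _ h1]
  · rw [hωW, hωW' _ h1]
  · rw [hωW, hωW' _ h1]
  · rw [sysD_ω, sysD_ω, ωB_gX_left, ωB_gX_left]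
  · rw [sysD_ω, sysD_ω, ωB_gX_left, ωB_gZ_left]
    congr 1
    change sgn (Finsupp.single (N, true) (1 : ZMod 2) (N, false)) = 1
    rw [Finsupp.single_apply, if_neg (by simp), sgn_zero]
  · intro g hg
    have hX : ∀ b : Bool, sysD.ω (1, gX (N, b)) g = sysD.ω g (1, gX (N, b)) := by
      intro b
      have h := (hN g.2 (Finset.mem_image_of_mem _ hg) b).2
      rw [sysD_ω, sysD_ω, ωB_gX_left, ωB_gX_right, h, sgn_zero, ωA_one_left, map_one]
    refine ⟨?_, hX false, ?_, hX true⟩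
    · rw [hωW, hωW' _ (hn g.1 (Finset.mem_image_of_mem _ hg))]
    · have h := (hN g.2 (Finset.mem_image_of_mem _ hg) false).1
      rw [sysD_ω, sysD_ω, ωB_gZ_left, ωB_gZ_right, h, sgn_zero, ωA_one_left, map_one]
  · intro k
    refine ⟨?_, ?_, ?_, ?_⟩
    · rw [Circle.coe_mul]
      change (cA k.1 (Multiplicative.ofAdd (3 ^ n : ℤ), 1) : ℂ) * (cB k.2 1 : ℂ) = _
      rw [coe_cA_odd, cB_one, Circle.coe_one, mul_one]
    · change ((cA k.1 1 * cB k.2 (gX (N, false)) : Circle) : ℂ) = _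
      rw [cA_one, cB_eq_one _ (χB_gX_false N), one_mul, Circle.coe_one]
    · change ((cA k.1 1 * cB k.2 (gZ (N, false)) : Circle) : ℂ) = _
      rw [cA_one, cB_eq_one _ (χB_gZ _), one_mul, Circle.coe_one]
    · rw [Circle.coe_mul]
      change (cA k.1 1 : ℂ) * (cB k.2 (gX (N, true)) : ℂ) = _
      rw [cA_one, coe_cB_gX_true, Circle.coe_one, one_mul]

theorem rokhlin_actB : HasRokhlinProperty actB := by
  classical
  refine rokhlin_of_symmetry actB sysB.fin sysB.dense_fin fun S hS => ?_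
  obtain ⟨T, hT⟩ := sysB.exists_finset S hS
  obtain ⟨N, hN⟩ := exists_index T
  have hRR : sysB.U (gX (N, true)) * sysB.U (gX (N, true)) = 1 :=
    sysB.U_mul_self (ωB_gX_left _ _) (gX_mul_self _)
  refine ⟨sysB.U (gX (N, true)), sysB.star_U_of_self hRR, hRR, fun k => ?_, fun c hc => ?_⟩
  · rw [actB_U, coe_cB_gX_true]
  · refine hT _ (fun g hg => sysB.commute_U ?_) c hc
    have h := (hN g hg true).2
    rw [sysB_ω, ωB_gX_left, ωB_gX_right, h, sgn_zero]

end Pool.Agent.Work.MP_7f0ddb_an.H59
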