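import Pool.Agent.Work.MP_7f0ddb_an.H59.Twisted

/-!
# Simplicity of twisted group C*-algebras for nondegenerate bicharacters
-/

open scoped InnerProductSpace

namespace Pool.Agent.Work.MP_7f0ddb_an.H59

namespace TwSys

variable {G : Type} [CommGroup G] {E : Type} [NormedAddCommGroup E]
    [InnerProductSpace ℂ E] [CompleteSpace E] (s : TwSys G E)

/-- The unitaries `u g` as elements of the algebra. -/
noncomputable def U (g : G) : s.alg := ⟨s.u g, s.u_mem g⟩

theorem star_U_mul (g : G) : star (s.U g) * s.U g = 1 := Subtype.ext (s.star_u_mul g)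

theorem U_mul_star (g : G) : s.U g * star (s.U g) = 1 := Subtype.ext (s.u_mul_star g)

theorem U_mul (g h : G) : s.U g * s.U h = (s.ω g h : ℂ) • s.U (g * h) := Subtype.ext (s.u_mul g h)

theorem U_one : s.U 1 = 1 := Subtype.ext s.u_one

theorem U_mem_unitary (g : G) : s.U g ∈ unitary s.alg := ⟨s.star_U_mul g, s.U_mul_star g⟩

theorem norm_U_mul (g : G) (b : s.alg) : ‖s.U g * b‖ = ‖b‖ :=
  CStarRing.norm_mem_unitary_mul b (s.U_mem_unitary g)

theorem norm_mul_star_U (g : G) (b : s.alg) : ‖b * star (s.U g)‖ = ‖b‖ :=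
  CStarRing.norm_mul_mem_unitary b (Unitary.star_mem (s.U_mem_unitary g))

theorem nontrivial_alg : Nontrivial s.alg := by
  refine ⟨1, 0, fun h => ?_⟩
  have h1 : (1 : E →L[ℂ] E) = 0 := congrArg Subtype.val h
  have h2 := s.τ_one
  rw [h1, s.τ_zero] at h2
  exact zero_ne_one h2

theorem norm_U_le (g : G) : ‖s.U g‖ ≤ 1 := by
  have := s.nontrivial_alg
  exact (CStarRing.norm_of_mem_unitary (s.U_mem_unitary g)).le

/-- An averaging map with multiplier `m`. -/
structure IsAvg (Φ : s.alg →ₗ[ℂ] s.alg) (m : G → ℂ) : Prop where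
  norm_le : ∀ b, ‖Φ b‖ ≤ ‖b‖
  map_U : ∀ g, Φ (s.U g) = m g • s.U g
  m_one : m 1 = 1
  m_le : ∀ g, ‖m g‖ ≤ 1
  ideal : ∀ (I : TwoSidedIdeal s.alg) (b : s.alg), b ∈ I → Φ b ∈ I

theorem isAvg_id : s.IsAvg LinearMap.id (fun _ => 1) :=
  ⟨fun _ => le_rfl, fun _ => (one_smul _ _).symm, rfl, fun _ => by simp, fun _ _ h => h⟩

variable {s} in
theorem IsAvg.comp {Φ Φ' : s.alg →ₗ[ℂ] s.alg} {m m' : G → ℂ} (h : s.IsAvg Φ m)
    (h' : s.IsAvg Φ' m') : s.IsAvg (Φ ∘ₗ Φ') (fun g => m g * m' g) where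
  norm_le b := (h.norm_le _).trans (h'.norm_le b)
  map_U g := by
    rw [LinearMap.comp_apply, h'.map_U, map_smul, h.map_U, smul_smul, mul_comm]
  m_one := by rw [h.m_one, h'.m_one, one_mul]
  m_le g := by
    rw [norm_mul]
    exact mul_le_one₀ (h.m_le g) (norm_nonneg _) (h'.m_le g)
  ideal I b hb := h.ideal I _ (h'.ideal I b hb)

variable {s} in
theorem IsAvg.iterate {Φ : s.alg →ₗ[ℂ] s.alg} {m : G → ℂ} (h : s.IsAvg Φ m) (k : ℕ) :
    ∃ Φ', s.IsAvg Φ' (fun g => m g ^ k) := by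
  induction k with
  | zero => exact ⟨_, by simpa using s.isAvg_id⟩
  | succ k ih =>
    obtain ⟨Φ', hΦ'⟩ := ih
    exact ⟨Φ' ∘ₗ Φ, by simpa [pow_succ] using hΦ'.comp h⟩

/-- The average of the identity and conjugation by `u h`. -/
noncomputable def avg (h : G) : s.alg →ₗ[ℂ] s.alg where
  toFun b := (2⁻¹ : ℂ) • (b + s.U h * b * star (s.U h))
  map_add' a b := by rw [← smul_add]; congr 1; noncomm_ring
  map_smul' c b := by
    rw [RingHom.id_apply, smul_comm c, mul_smul_comm, smul_mul_assoc, ← smul_add]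

theorem avg_apply (h : G) (b : s.alg) :
    s.avg h b = (2⁻¹ : ℂ) • (b + s.U h * b * star (s.U h)) := rfl

theorem U_conj (h g : G) : s.U h * s.U g * star (s.U h) =
    (s.ω h g / s.ω g h : Circle) • s.U g := by
  have h1 : s.U h * s.U g = (s.ω h g / s.ω g h : Circle) • (s.U g * s.U h) := by
    rw [s.U_mul, s.U_mul, mul_comm g h, Circle.smul_def, smul_smul, ← Circle.coe_mul,
      div_mul_cancel]
  rw [h1, Circle.smul_def, Circle.smul_def, smul_mul_assoc, mul_assoc, s.U_mul_star, mul_one]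

theorem isAvg_avg (h : G) :
    s.IsAvg (s.avg h) (fun g => (1 + (s.ω h g / s.ω g h : Circle)) / 2) where
  norm_le b := by
    rw [avg_apply, norm_smul]
    have h1 : ‖b + s.U h * b * star (s.U h)‖ ≤ ‖b‖ + ‖b‖ := by
      refine (norm_add_le _ _).trans ?_
      rw [s.norm_mul_star_U, s.norm_U_mul]
    have h2 : ‖(2⁻¹ : ℂ)‖ = 2⁻¹ := by simp
    rw [h2]
    linarith
  map_U g := by
    have key : ∀ c : ℂ, (2⁻¹ : ℂ) • (s.U g + c • s.U g) = ((1 + c) / 2) • s.U g :=
      fun c => by module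
    rw [avg_apply, s.U_conj, Circle.smul_def]
    exact key _
  m_one := by simp
  m_le g := by
    rw [norm_div]
    have := norm_add_le (1 : ℂ) ((s.ω h g / s.ω g h : Circle) : ℂ)
    rw [Circle.norm_coe, norm_one] at this
    have h2 : ‖(2 : ℂ)‖ = 2 := by simp
    rw [h2]
    linarith
  ideal I b hb := by
    rw [avg_apply]
    have h1 : b + s.U h * b * star (s.U h) ∈ I :=
      I.add_mem hb (I.mul_mem_right _ _ (I.mul_mem_left _ _ hb))
    have h2 := I.mul_mem_left ((2⁻¹ : ℂ) • (1 : s.alg)) _ h1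
    rwa [smul_mul_assoc, one_mul] at h2

theorem norm_one_add_div_two_lt {z : Circle} (hz : z ≠ 1) : ‖(1 + (z : ℂ)) / 2‖ < 1 := by
  have h1 : ‖(z : ℂ)‖ = 1 := Circle.norm_coe z
  have h2 : (z : ℂ) ≠ 1 := fun h => hz (Circle.ext (by simpa using h))
  have h3 : (z : ℂ).re ^ 2 + (z : ℂ).im ^ 2 = 1 := by
    have := Complex.sq_norm (z : ℂ)
    rw [h1, Complex.normSq_apply] at this
    nlinarith
  have h4 : (z : ℂ).re < 1 := by
    by_contra hcon
    have h5 : (z : ℂ).re = 1 := by nlinarith [sq_nonneg (z : ℂ).im]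
    have h6 : (z : ℂ).im = 0 := by
      have : (z : ℂ).im ^ 2 = 0 := by nlinarith
      exact pow_eq_zero_iff two_ne_zero |>.1 this
    exact h2 (Complex.ext (by simpa using h5) (by simpa using h6))
  have h5 : ‖1 + (z : ℂ)‖ ^ 2 < 4 := by
    rw [Complex.sq_norm, Complex.normSq_apply]
    simp only [Complex.add_re, Complex.one_re, Complex.add_im, Complex.one_im, zero_add]
    nlinarith
  rw [norm_div]
  have h6 : ‖(2 : ℂ)‖ = 2 := by simp
  rw [h6, div_lt_one two_pos]
  nlinarith [norm_nonneg (1 + (z : ℂ))]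

/-- Nondegeneracy of the commutation bicharacter. -/
def Nondeg : Prop := ∀ g : G, g ≠ 1 → ∃ h, s.ω h g ≠ s.ω g h

variable {s} in
theorem exists_avg (hs : s.Nondeg) (S : Finset G) {δ : ℝ} (hδ : 0 < δ) :
    ∃ Φ m, s.IsAvg Φ m ∧ ∀ g ∈ S, g ≠ 1 → ‖m g‖ ≤ δ := by
  classical
  induction S using Finset.induction_on with
  | empty => exact ⟨_, _, s.isAvg_id, by simp⟩
  | insert g₀ S hg₀ ih =>
    obtain ⟨Φ, m, hΦ, hm⟩ := ih
    by_cases h1 : g₀ = 1
    · refine ⟨Φ, m, hΦ, fun g hg hg1 => hm g ?_ hg1⟩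
      rcases Finset.mem_insert.1 hg with rfl | h
      · exact absurd h1 hg1
      · exact h
    obtain ⟨h, hh⟩ := hs g₀ h1
    have hne : (s.ω h g₀ / s.ω g₀ h : Circle) ≠ 1 := by rwa [Ne, div_eq_one]
    obtain ⟨k, hk⟩ := exists_pow_lt_of_lt_one hδ (norm_one_add_div_two_lt hne)
    obtain ⟨Φ', hΦ'⟩ := (s.isAvg_avg h).iterate k
    refine ⟨_, _, hΦ'.comp hΦ, fun g hg hg1 => ?_⟩
    rw [norm_mul]
    rcases Finset.mem_insert.1 hg with rfl | h
    · rw [norm_pow]
      calc _ ≤ δ * 1 := mul_le_mul hk.le (hΦ.m_le g) (norm_nonneg _) hδ.le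
        _ = δ := mul_one _
    · calc _ ≤ 1 * δ := mul_le_mul (hΦ'.m_le g) (hm g h hg1) (norm_nonneg _) zero_le_one
        _ = δ := one_mul _

theorem exists_finsupp_approx (b : s.alg) {ε : ℝ} (hε : 0 < ε) :
    ∃ f : G →₀ ℂ, ‖b - f.sum fun g a => a • s.U g‖ < ε := by
  have hb := b.2
  rw [s.mem_alg, Metric.mem_closure_iff] at hb
  obtain ⟨c, hc, hbc⟩ := hb ε hε
  obtain ⟨f, rfl⟩ := Finsupp.mem_span_range_iff_exists_finsupp.1 hc
  refine ⟨f, ?_⟩
  rw [dist_eq_norm] at hbc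
  refine lt_of_eq_of_lt ?_ hbc
  change ‖((b - f.sum fun g a => a • s.U g : s.alg) : E →L[ℂ] E)‖ = _
  congr 1
  simp only [Finsupp.sum, AddSubgroupClass.coe_sub, AddSubmonoidClass.coe_finsetSum]
  rfl

theorem τ_finsupp (f : G →₀ ℂ) :
    s.τ ((f.sum fun g a => a • s.U g : s.alg) : E →L[ℂ] E) = f 1 := by
  classical
  have h0 : ((f.sum fun g a => a • s.U g : s.alg) : E →L[ℂ] E) =
      ∑ g ∈ f.support, f g • s.u g := by
    simp only [Finsupp.sum, AddSubmonoidClass.coe_finsetSum]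
    rfl
  have hsum : ∀ S : Finset G, s.τ (∑ g ∈ S, f g • s.u g) = ∑ g ∈ S, f g * s.τ (s.u g) := by
    intro S
    induction S using Finset.induction_on with
    | empty => simp [s.τ_zero]
    | insert g S hg ih => rw [Finset.sum_insert hg, Finset.sum_insert hg, τ_add, τ_smul, ih]
  rw [h0, hsum]
  by_cases h1 : (1 : G) ∈ f.support
  · rw [Finset.sum_eq_single_of_mem 1 h1, s.u_one, s.τ_one, mul_one]
    intro g _ hg
    rw [s.τ_u hg, mul_zero]
  · rw [Finsupp.notMem_support_iff.1 h1]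
    refine Finset.sum_eq_zero fun g hg => ?_
    have : g ≠ 1 := by rintro rfl; exact h1 hg
    rw [s.τ_u this, mul_zero]

theorem one_mem_of_mem (hs : s.Nondeg) (I : TwoSidedIdeal s.alg) {a : s.alg} (ha : a ∈ I)
    (hne : a ≠ 0) : (1 : s.alg) ∈ I := by
  classical
  set b : s.alg := star a * a with hb
  have hbI : b ∈ I := I.mul_mem_left _ _ ha
  have ha' : (a : E →L[ℂ] E) ≠ 0 := fun h => hne (Subtype.ext h)
  set t : ℝ := ‖(a : E →L[ℂ] E) s.ξ‖ ^ 2 with ht
  have htpos : 0 < t := s.τ_star_mul_self_ne_zero a.2 ha'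
  have hτb : s.τ (b : E →L[ℂ] E) = (t : ℂ) := s.τ_star_mul_self (a : E →L[ℂ] E)
  obtain ⟨f, hf⟩ := s.exists_finsupp_approx b (show 0 < t / 4 by positivity)
  set c : s.alg := f.sum fun g a => a • s.U g with hc
  have hf1 : ‖(t : ℂ) - f 1‖ < t / 4 := by
    rw [← hτb, ← s.τ_finsupp f]
    have h1 : s.τ (b : E →L[ℂ] E) - s.τ (c : E →L[ℂ] E) = s.τ ((b - c : s.alg) : E →L[ℂ] E) := by
      have := s.τ_add ((b - c : s.alg) : E →L[ℂ] E) (c : E →L[ℂ] E)
      rw [AddSubgroupClass.coe_sub, sub_add_cancel] at this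
      rw [this, AddSubgroupClass.coe_sub, add_sub_cancel_right]
    rw [h1]
    exact (s.norm_τ_le _).trans_lt hf
  have hM : 0 < 1 + ∑ g ∈ f.support, ‖f g‖ := by positivity
  obtain ⟨Φ, m, hΦ, hm⟩ := exists_avg hs f.support
    (show 0 < t / 4 / (1 + ∑ g ∈ f.support, ‖f g‖) by positivity)
  have hΦc : ‖Φ c - f 1 • (1 : s.alg)‖ ≤ t / 4 := by
    have h1 : Φ c = ∑ g ∈ f.support, (f g * m g) • s.U g := by
      rw [hc, Finsupp.sum, map_sum]
      refine Finset.sum_congr rfl fun g _ => ?_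
      rw [map_smul, hΦ.map_U, smul_smul]
    have h2 : f 1 • (1 : s.alg) = ∑ g ∈ f.support, (if g = 1 then f g * m g else 0) • s.U g := by
      by_cases h1 : (1 : G) ∈ f.support
      · rw [Finset.sum_eq_single_of_mem 1 h1]
        · rw [if_pos rfl, hΦ.m_one, mul_one, s.U_one]
        · intro g _ hg
          rw [if_neg hg, zero_smul]
      · rw [Finsupp.notMem_support_iff.1 h1, zero_smul, eq_comm]
        refine Finset.sum_eq_zero fun g hg => ?_
        have : g ≠ 1 := by rintro rfl; exact h1 hg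
        rw [if_neg this, zero_smul]
    rw [h1, h2, ← Finset.sum_sub_distrib]
    calc _ ≤ ∑ g ∈ f.support, ‖(f g * m g) • s.U g - (if g = 1 then f g * m g else 0) • s.U g‖ :=
          norm_sum_le _ _
      _ ≤ ∑ g ∈ f.support, ‖f g‖ * (t / 4 / (1 + ∑ g ∈ f.support, ‖f g‖)) := by
          refine Finset.sum_le_sum fun g hg => ?_
          rw [← sub_smul, norm_smul]
          by_cases h3 : g = 1
          · rw [if_pos h3, sub_self, norm_zero, zero_mul]
            positivity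
          · rw [if_neg h3, sub_zero, norm_mul]
            calc _ ≤ ‖f g‖ * (t / 4 / (1 + ∑ g ∈ f.support, ‖f g‖)) * 1 := by
                  refine mul_le_mul ?_ (s.norm_U_le g) (norm_nonneg _) (by positivity)
                  exact mul_le_mul_of_nonneg_left (hm g hg h3) (norm_nonneg _)
              _ = _ := mul_one _
      _ = (∑ g ∈ f.support, ‖f g‖) * (t / 4 / (1 + ∑ g ∈ f.support, ‖f g‖)) := by
          rw [Finset.sum_mul]
      _ ≤ (1 + ∑ g ∈ f.support, ‖f g‖) * (t / 4 / (1 + ∑ g ∈ f.support, ‖f g‖)) := by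
          refine mul_le_mul_of_nonneg_right (by linarith) (by positivity)
      _ = t / 4 := by field_simp
  have hbc : ‖Φ b - Φ c‖ < t / 4 := by
    rw [← map_sub]
    exact (hΦ.norm_le _).trans_lt hf
  have hfin : ‖Φ b - (t : ℂ) • (1 : s.alg)‖ < t := by
    have e : Φ b - (t : ℂ) • (1 : s.alg) = (Φ b - Φ c) + (Φ c - f 1 • (1 : s.alg)) -
        ((t : ℂ) - f 1) • (1 : s.alg) := by
      rw [sub_smul]; abel
    have h1 : ‖((t : ℂ) - f 1) • (1 : s.alg)‖ ≤ t / 4 := by
      rw [norm_smul]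
      have := s.norm_U_le 1
      rw [s.U_one] at this
      nlinarith [norm_nonneg ((t : ℂ) - f 1), norm_nonneg (1 : s.alg)]
    rw [e]
    refine (norm_sub_le _ _).trans_lt ?_
    have := norm_add_le (Φ b - Φ c) (Φ c - f 1 • (1 : s.alg))
    linarith
  have hΦI := hΦ.ideal I b hbI
  have hunit : IsUnit ((t⁻¹ : ℂ) • Φ b) := by
    have h1 : ‖(1 : s.alg) - (t⁻¹ : ℂ) • Φ b‖ < 1 := by
      have e : (1 : s.alg) - (t⁻¹ : ℂ) • Φ b = -((t⁻¹ : ℂ) • (Φ b - (t : ℂ) • (1 : s.alg))) := by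
        rw [smul_sub, smul_smul, inv_mul_cancel₀ (by exact_mod_cast htpos.ne'), one_smul, neg_sub]
      rw [e, norm_neg, norm_smul, norm_inv, Complex.norm_real, Real.norm_of_nonneg htpos.le]
      rw [inv_mul_lt_iff₀ htpos, mul_one]
      exact hfin
    have h2 := isUnit_one_sub_of_norm_lt_one h1
    rwa [sub_sub_cancel] at h2
  obtain ⟨v, hv⟩ := hunit.exists_right_inv
  rw [← hv]
  have h3 := I.mul_mem_left ((t⁻¹ : ℂ) • (1 : s.alg)) _ hΦI
  rw [smul_mul_assoc, one_mul] at h3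
  exact I.mul_mem_right _ _ h3

theorem isSimpleRing (hs : s.Nondeg) : IsSimpleRing s.alg := by
  have := s.nontrivial_alg
  refine ⟨⟨fun I => ?_⟩⟩
  by_cases h : ∀ a ∈ I, a = 0
  · left
    refine TwoSidedIdeal.ext fun x => ⟨fun hx => (TwoSidedIdeal.mem_bot _).2 (h x hx), fun hx => ?_⟩
    rw [TwoSidedIdeal.mem_bot] at hx
    rw [hx]
    exact I.zero_mem
  · push Not at h
    obtain ⟨a, ha, hne⟩ := h
    right
    exact (TwoSidedIdeal.one_mem_iff I).1 (s.one_mem_of_mem hs I ha hne)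

/-- Twisted group C*-algebras are stably finite. -/
theorem stablyFinite (n : ℕ) (x : Matrix (Fin n) (Fin n) s.alg) (hx : star x * x = 1) :
    x * star x = 1 := by
  classical
  set T : s.alg → ℂ := fun a => s.τ (a : E →L[ℂ] E) with hT
  have hTsum : ∀ (F : Fin n → s.alg), T (∑ i, F i) = ∑ i, T (F i) := by
    intro F
    have : ∀ S : Finset (Fin n), T (∑ i ∈ S, F i) = ∑ i ∈ S, T (F i) := by
      intro S
      induction S using Finset.induction_on with
      | empty => simp [hT, s.τ_zero]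
      | insert g S hg ih =>
        rw [Finset.sum_insert hg, Finset.sum_insert hg, ← ih]
        exact s.τ_add _ _
    exact this _
  have hTcomm : ∀ a b : s.alg, T (a * b) = T (b * a) := fun a b => s.τ_mul_comm a.2 b.2
  set z : Matrix (Fin n) (Fin n) s.alg := 1 - x * star x with hz
  have hz1 : star z * z = z := by
    have h1 : star z = z := by rw [hz, star_sub, star_mul, star_star, star_one]
    have h2 : x * star x * (x * star x) = x * star x := by
      rw [mul_assoc, ← mul_assoc (star x), hx, one_mul]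
    rw [h1, hz]
    rw [sub_mul, mul_sub, one_mul, mul_sub, mul_one, h2, one_mul, sub_self, sub_zero]
  have htr : ∑ i, T (z i i) = 0 := by
    have h1 : ∀ i, T (z i i) = T 1 - T ((x * star x) i i) := by
      intro i
      rw [hz, Matrix.sub_apply, Matrix.one_apply_eq]
      have := s.τ_add ((1 - (x * star x) i i : s.alg) : E →L[ℂ] E)
        (((x * star x) i i : s.alg) : E →L[ℂ] E)
      rw [AddSubgroupClass.coe_sub, sub_add_cancel] at this
      simp only [hT]
      rw [AddSubgroupClass.coe_sub, this, add_sub_cancel_right]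
    have h2 : ∑ i, T ((x * star x) i i) = ∑ i, T ((star x * x) i i) := by
      simp only [Matrix.mul_apply, hTsum, Matrix.star_apply]
      rw [Finset.sum_comm]
      refine Finset.sum_congr rfl fun j _ => Finset.sum_congr rfl fun i _ => hTcomm _ _
    rw [Finset.sum_congr rfl fun i _ => h1 i, Finset.sum_sub_distrib, h2, hx]
    simp
  have hpos : ∀ i j, T (star (z j i) * z j i) = ((‖(z j i : E →L[ℂ] E) s.ξ‖ ^ 2 : ℝ) : ℂ) :=
    fun i j => s.τ_star_mul_self _
  have hzero : ∑ i, ∑ j, ‖(z j i : E →L[ℂ] E) s.ξ‖ ^ 2 = 0 := by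
    have h1 : ((∑ i, ∑ j, ‖(z j i : E →L[ℂ] E) s.ξ‖ ^ 2 : ℝ) : ℂ) = ∑ i, T (z i i) := by
      push_cast
      refine Finset.sum_congr rfl fun i _ => ?_
      conv_rhs => rw [← hz1]
      rw [Matrix.mul_apply, hTsum]
      refine Finset.sum_congr rfl fun j _ => ?_
      rw [Matrix.star_apply, hpos]
      push_cast
      rfl
    rw [htr] at h1
    exact_mod_cast h1
  have hz0 : z = 0 := by
    ext j i
    rw [Finset.sum_eq_zero_iff_of_nonneg (fun i _ => Finset.sum_nonneg fun j _ => by positivity)]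
      at hzero
    have h1 := hzero i (Finset.mem_univ _)
    rw [Finset.sum_eq_zero_iff_of_nonneg (fun j _ => by positivity)] at h1
    have h2 := h1 j (Finset.mem_univ _)
    have h3 : (z j i : E →L[ℂ] E) s.ξ = 0 := by
      exact norm_eq_zero.1 (pow_eq_zero_iff two_ne_zero |>.1 h2)
    have h4 := s.eq_zero_of_apply_ξ (z j i).2 h3
    rw [h4]
    rfl
  rw [hz, sub_eq_zero] at hz0
  exact hz0.symm

end TwSys

end Pool.Agent.Work.MP_7f0ddb_an.H59
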