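import Pool.Agent.Work.MP_7f0ddb_an.H59.L2

/-!
# Tensor products of twisted systems and dual actions
-/

open scoped InnerProductSpace TensorProduct

namespace Pool.Agent.Work.MP_7f0ddb_an.H59

namespace TwSys

set_option linter.unusedSectionVars false

variable {G : Type} [CommGroup G] {E : Type} [NormedAddCommGroup E]
  [InnerProductSpace ℂ E] [CompleteSpace E] (s : TwSys G E)
  {G' : Type} [CommGroup G'] {E' : Type} [NormedAddCommGroup E']
  [InnerProductSpace ℂ E'] [CompleteSpace E'] (s' : TwSys G' E')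

/-- The product bicharacter. -/
noncomputable def prodω (ω : G →* G →* Circle) (ω' : G' →* G' →* Circle) : G × G' →* G × G' →* Circle where
  toFun p :=
    { toFun := fun q => ω p.1 q.1 * ω' p.2 q.2
      map_one' := by simp
      map_mul' := fun q r => by
        simp only [Prod.fst_mul, Prod.snd_mul, map_mul]
        rw [mul_mul_mul_comm] }
  map_one' := by ext q; simp
  map_mul' p r := by
    ext q
    simp only [Prod.fst_mul, Prod.snd_mul, map_mul, MonoidHom.mul_apply, MonoidHom.coe_mk,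
      OneHom.coe_mk, mul_mul_mul_comm]

theorem prodω_apply (ω : G →* G →* Circle) (ω' : G' →* G' →* Circle) (p q : G × G') :
    prodω ω ω' p q = ω p.1 q.1 * ω' p.2 q.2 := rfl

/-- The tensor product of two twisted systems. -/
noncomputable def tensor : TwSys (G × G') (HilbertTensor E E') where
  ω := prodω s.ω s'.ω
  u p := opMap (s.u p.1) (s'.u p.2)
  star_u_mul p := by
    rw [star_opMap, ← opMap_mul, s.star_u_mul, s'.star_u_mul, opMap_one]
  u_mul p q := by
    rw [← opMap_mul, s.u_mul, s'.u_mul, opMap_smul_left, opMap_smul_right, smul_smul,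
      prodω_apply, Circle.coe_mul]
    rfl
  ξ := tm s.ξ s'.ξ
  norm_ξ := by rw [norm_tm, s.norm_ξ, s'.norm_ξ, one_mul]
  inner_ξ p hp := by
    rw [opMap_tm, inner_tm]
    by_cases h1 : p.1 = 1
    · have h2 : p.2 ≠ 1 := fun h2 => hp (Prod.ext h1 h2)
      rw [s'.inner_ξ _ h2, mul_zero]
    · rw [s.inner_ξ _ h1, zero_mul]
  dense := by
    set S := (Submodule.span ℂ (Set.range fun p : G × G' =>
      opMap (s.u p.1) (s'.u p.2) (tm s.ξ s'.ξ))).topologicalClosure with hS
    have h1 : ∀ g g', tm (s.u g s.ξ) (s'.u g' s'.ξ) ∈ S := by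
      intro g g'
      rw [← opMap_tm]
      exact Submodule.le_topologicalClosure _ (Submodule.subset_span ⟨(g, g'), rfl⟩)
    have hSc : IsClosed (S : Set (HilbertTensor E E')) := Submodule.isClosed_topologicalClosure _
    have h2 : ∀ x g', tm x (s'.u g' s'.ξ) ∈ S := by
      intro x g'
      refine s.dense.induction (P := fun x => tm x (s'.u g' s'.ξ) ∈ S) (fun y hy => ?_)
        (hSc.preimage (continuous_tm.comp (by fun_prop : Continuous fun x : E =>
          (x, s'.u g' s'.ξ)))) x
      induction hy using Submodule.span_induction with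
      | mem y hy => obtain ⟨g, rfl⟩ := hy; exact h1 g g'
      | zero =>
        have := tm_smul_left (0 : ℂ) (0 : E) (s'.u g' s'.ξ)
        rw [zero_smul, zero_smul] at this
        rw [this]
        exact S.zero_mem
      | add x y _ _ hx hy => rw [tm_add_left]; exact S.add_mem hx hy
      | smul c x _ hx => rw [tm_smul_left]; exact S.smul_mem _ hx
    have h3 : ∀ x y, tm x y ∈ S := by
      intro x y
      refine s'.dense.induction (P := fun y => tm x y ∈ S) (fun y hy => ?_)
        (hSc.preimage (continuous_tm.comp (by fun_prop : Continuous fun y : E' => (x, y)))) y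
      induction hy using Submodule.span_induction with
      | mem y hy => obtain ⟨g, rfl⟩ := hy; exact h2 x g
      | zero =>
        have := tm_smul_right (0 : ℂ) x (0 : E')
        rw [zero_smul, zero_smul] at this
        rw [this]
        exact S.zero_mem
      | add x y _ _ hx hy => rw [tm_add_right]; exact S.add_mem hx hy
      | smul c x _ hx => rw [tm_smul_right]; exact S.smul_mem _ hx
    intro z
    exact tm_induction (p := fun z => z ∈ S) hSc (fun _ _ h h' => S.add_mem h h') h3 z

theorem tensor_u (p : G × G') : (s.tensor s').u p = opMap (s.u p.1) (s'.u p.2) := rfl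

theorem tensor_ω (p q : G × G') : (s.tensor s').ω p q = s.ω p.1 q.1 * s'.ω p.2 q.2 := rfl

theorem continuous_opMap_left (T : E' →L[ℂ] E') :
    Continuous fun S : E →L[ℂ] E => opMap S T := by
  let L : (E →L[ℂ] E) →ₗ[ℂ] (HilbertTensor E E' →L[ℂ] HilbertTensor E E') :=
    { toFun := fun S => opMap S T
      map_add' := fun S S' => opMap_add_left S S' T
      map_smul' := fun c S => opMap_smul_left c S T }
  have hL : ∀ S : E →L[ℂ] E, ‖L S‖ ≤ ‖T‖ * ‖S‖ := fun S => by
    rw [mul_comm]; exact norm_opMap_le S T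
  exact AddMonoidHomClass.continuous_of_bound L ‖T‖ hL

theorem continuous_opMap_right (S : E →L[ℂ] E) :
    Continuous fun T : E' →L[ℂ] E' => opMap S T := by
  let L : (E' →L[ℂ] E') →ₗ[ℂ] (HilbertTensor E E' →L[ℂ] HilbertTensor E E') :=
    { toFun := fun T => opMap S T
      map_add' := fun T T' => opMap_add_right S T T'
      map_smul' := fun c T => opMap_smul_right c S T }
  have hL : ∀ T : E' →L[ℂ] E', ‖L T‖ ≤ ‖S‖ * ‖T‖ := fun T => norm_opMap_le S T
  exact AddMonoidHomClass.continuous_of_bound L ‖S‖ hL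

theorem opMap_zero_left (T : E' →L[ℂ] E') : opMap (0 : E →L[ℂ] E) T = 0 := by
  have := opMap_smul_left (0 : ℂ) (0 : E →L[ℂ] E) T
  rwa [zero_smul, zero_smul] at this

theorem opMap_zero_right (S : E →L[ℂ] E) : opMap S (0 : E' →L[ℂ] E') = 0 := by
  have := opMap_smul_right (0 : ℂ) S (0 : E' →L[ℂ] E')
  rwa [zero_smul, zero_smul] at this

theorem opMap_mem {a : E →L[ℂ] E} (ha : a ∈ s.alg) {b : E' →L[ℂ] E'} (hb : b ∈ s'.alg) :
    opMap a b ∈ (s.tensor s').alg := by
  refine s.alg_induction (p := fun a => opMap a b ∈ (s.tensor s').alg)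
    ((s.tensor s').isClosed_alg.preimage (continuous_opMap_left b))
    (by rw [opMap_zero_left]; exact zero_mem _)
    (fun a a' h h' => by rw [opMap_add_left]; exact add_mem h h')
    (fun c a h => by rw [opMap_smul_left]; exact SMulMemClass.smul_mem c h) (fun g => ?_) ha
  refine s'.alg_induction (p := fun b => opMap (s.u g) b ∈ (s.tensor s').alg)
    ((s.tensor s').isClosed_alg.preimage (continuous_opMap_right _))
    (by rw [opMap_zero_right]; exact zero_mem _)
    (fun a a' h h' => by rw [opMap_add_right]; exact add_mem h h')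
    (fun c a h => by rw [opMap_smul_right]; exact SMulMemClass.smul_mem c h) (fun g' => ?_) hb
  exact (s.tensor s').u_mem (g, g')

/-- `a ↦ a ⊗ 1`. -/
noncomputable def iHom : s.alg →⋆ₐ[ℂ] (s.tensor s').alg where
  toFun a := ⟨leftHom E E' a, s.opMap_mem s' a.2 (one_mem _)⟩
  map_one' := Subtype.ext (map_one (leftHom E E'))
  map_mul' a b := Subtype.ext (map_mul (leftHom E E') (a : E →L[ℂ] E) b)
  map_zero' := Subtype.ext (map_zero (leftHom E E'))
  map_add' a b := Subtype.ext (map_add (leftHom E E') (a : E →L[ℂ] E) b)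
  commutes' c := Subtype.ext ((leftHom E E').commutes' c)
  map_star' a := Subtype.ext (map_star (leftHom E E') (a : E →L[ℂ] E))

/-- `b ↦ 1 ⊗ b`. -/
noncomputable def jHom : s'.alg →⋆ₐ[ℂ] (s.tensor s').alg where
  toFun a := ⟨rightHom E E' a, s.opMap_mem s' (one_mem _) a.2⟩
  map_one' := Subtype.ext (map_one (rightHom E E'))
  map_mul' a b := Subtype.ext (map_mul (rightHom E E') (a : E' →L[ℂ] E') b)
  map_zero' := Subtype.ext (map_zero (rightHom E E'))
  map_add' a b := Subtype.ext (map_add (rightHom E E') (a : E' →L[ℂ] E') b)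
  commutes' c := Subtype.ext ((rightHom E E').commutes' c)
  map_star' a := Subtype.ext (map_star (rightHom E E') (a : E' →L[ℂ] E'))

theorem coe_iHom_mul_jHom (a : s.alg) (b : s'.alg) :
    ((s.iHom s' a * s.jHom s' b : (s.tensor s').alg) :
      HilbertTensor E E' →L[ℂ] HilbertTensor E E') = opMap (a : E →L[ℂ] E) (b : E' →L[ℂ] E') :=
  leftHom_mul_rightHom _ _

theorem iHom_mul_jHom_U (g : G) (g' : G') :
    s.iHom s' (s.U g) * s.jHom s' (s'.U g') = (s.tensor s').U (g, g') :=
  Subtype.ext (s.coe_iHom_mul_jHom s' _ _)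

theorem iHom_U (g : G) : s.iHom s' (s.U g) = (s.tensor s').U (g, 1) := by
  rw [← s.iHom_mul_jHom_U s', s'.U_one, map_one, mul_one]

theorem jHom_U (g : G') : s.jHom s' (s'.U g) = (s.tensor s').U (1, g) := by
  rw [← s.iHom_mul_jHom_U s', s.U_one, map_one, one_mul]

theorem dense_span_U : Dense (Submodule.span ℂ (Set.range s.U) : Set s.alg) := by
  intro b
  rw [Metric.mem_closure_iff]
  intro ε hε
  obtain ⟨f, hf⟩ := s.exists_finsupp_approx b hε
  refine ⟨_, ?_, by rw [dist_eq_norm]; exact hf⟩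
  exact Submodule.sum_mem _ fun g _ =>
    Submodule.smul_mem _ _ (Submodule.subset_span ⟨g, rfl⟩)

theorem isMinimalTensorProduct : IsMinimalTensorProduct (s.iHom s') (s.jHom s') := by
  refine ⟨?_, E, E', _, _, ‹_›, _, _, ‹_›, s.alg.subtype, s'.alg.subtype,
    (s.tensor s').alg.subtype, Subtype.val_injective, Subtype.val_injective,
    Subtype.val_injective, ?_⟩
  · refine (s.tensor s').dense_span_U.mono ?_
    refine Submodule.span_le.2 ?_
    rintro _ ⟨p, rfl⟩
    exact Submodule.subset_span ⟨s.U p.1, s'.U p.2, (s.iHom_mul_jHom_U s' p.1 p.2).symm⟩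
  · intro a b x y
    change ((s.iHom s' a * s.jHom s' b : (s.tensor s').alg) :
      HilbertTensor E E' →L[ℂ] HilbertTensor E E') (tm x y) = tm _ _
    rw [s.coe_iHom_mul_jHom s' a b, opMap_tm]
    rfl

/-! ### Actions implemented by unitaries -/

variable {K : Type} [Group K]

theorem conj_mem {χ : G → Circle} {V : unitary (E →L[ℂ] E)}
    (hV : ∀ g, (V : E →L[ℂ] E) * s.u g * star (V : E →L[ℂ] E) = (χ g : ℂ) • s.u g)
    {a : E →L[ℂ] E} (ha : a ∈ s.alg) :
    (V : E →L[ℂ] E) * a * star (V : E →L[ℂ] E) ∈ s.alg := by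
  refine s.alg_induction
    (p := fun a => (V : E →L[ℂ] E) * a * star (V : E →L[ℂ] E) ∈ s.alg)
    (s.isClosed_alg.preimage (by fun_prop)) (by simp)
    (fun a a' h h' => by rw [mul_add, add_mul]; exact add_mem h h')
    (fun c a h => by rw [mul_smul_comm, smul_mul_assoc]; exact SMulMemClass.smul_mem c h)
    (fun g => by rw [hV]; exact SMulMemClass.smul_mem _ (s.u_mem g)) ha

/-- The action on the algebra implemented by a unitary representation. -/
noncomputable def action (χ : K → G → Circle) (V : K →* unitary (E →L[ℂ] E))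
    (hV : ∀ k g, (V k : E →L[ℂ] E) * s.u g * star (V k : E →L[ℂ] E) = (χ k g : ℂ) • s.u g) :
    K →* (s.alg ≃⋆ₐ[ℂ] s.alg) where
  toFun k :=
    { toFun := fun a => ⟨Unitary.conjStarAlgAut ℂ _ (V k) a, s.conj_mem (hV k) a.2⟩
      invFun := fun a => ⟨Unitary.conjStarAlgAut ℂ _ (V k⁻¹) a, s.conj_mem (hV k⁻¹) a.2⟩
      left_inv := fun a => Subtype.ext (by
        change (Unitary.conjStarAlgAut ℂ _ (V k⁻¹)) ((Unitary.conjStarAlgAut ℂ _ (V k))
          (a : E →L[ℂ] E)) = a
        rw [← StarAlgEquiv.mul_apply, ← map_mul, ← map_mul, inv_mul_cancel, map_one, map_one]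
        rfl)
      right_inv := fun a => Subtype.ext (by
        change (Unitary.conjStarAlgAut ℂ _ (V k)) ((Unitary.conjStarAlgAut ℂ _ (V k⁻¹))
          (a : E →L[ℂ] E)) = a
        rw [← StarAlgEquiv.mul_apply, ← map_mul, ← map_mul, mul_inv_cancel, map_one, map_one]
        rfl)
      map_mul' := fun a b => Subtype.ext (map_mul (Unitary.conjStarAlgAut ℂ _ (V k))
        (a : E →L[ℂ] E) b)
      map_add' := fun a b => Subtype.ext (map_add (Unitary.conjStarAlgAut ℂ _ (V k))
        (a : E →L[ℂ] E) b)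
      map_star' := fun a => Subtype.ext (map_star (Unitary.conjStarAlgAut ℂ _ (V k))
        (a : E →L[ℂ] E))
      map_smul' := fun c a => Subtype.ext (map_smul (Unitary.conjStarAlgAut ℂ _ (V k))
        c (a : E →L[ℂ] E)) }
  map_one' := by
    refine StarAlgEquiv.ext fun a => Subtype.ext ?_
    change Unitary.conjStarAlgAut ℂ _ (V 1) (a : E →L[ℂ] E) = a
    rw [map_one, map_one]
    rfl
  map_mul' k l := by
    refine StarAlgEquiv.ext fun a => Subtype.ext ?_
    change Unitary.conjStarAlgAut ℂ _ (V (k * l)) (a : E →L[ℂ] E) =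
      Unitary.conjStarAlgAut ℂ _ (V k) (Unitary.conjStarAlgAut ℂ _ (V l) (a : E →L[ℂ] E))
    rw [map_mul, map_mul]
    rfl

variable {s} in
theorem coe_action {χ : K → G → Circle} {V : K →* unitary (E →L[ℂ] E)}
    (hV : ∀ k g, (V k : E →L[ℂ] E) * s.u g * star (V k : E →L[ℂ] E) = (χ k g : ℂ) • s.u g)
    (k : K) (a : s.alg) :
    ((s.action χ V hV k a : s.alg) : E →L[ℂ] E) =
      (V k : E →L[ℂ] E) * (a : E →L[ℂ] E) * star (V k : E →L[ℂ] E) := rfl

variable {s} in
theorem action_U {χ : K → G → Circle} {V : K →* unitary (E →L[ℂ] E)}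
    (hV : ∀ k g, (V k : E →L[ℂ] E) * s.u g * star (V k : E →L[ℂ] E) = (χ k g : ℂ) • s.u g)
    (k : K) (g : G) : s.action χ V hV k (s.U g) = (χ k g : ℂ) • s.U g :=
  Subtype.ext (hV k g)

/-- The tensor product of two unitary representations. -/
noncomputable def tensorV {K' : Type} [Group K'] (V : K →* unitary (E →L[ℂ] E))
    (V' : K' →* unitary (E' →L[ℂ] E')) :
    K × K' →* unitary (HilbertTensor E E' →L[ℂ] HilbertTensor E E') where
  toFun p := ⟨opMap (V p.1 : E →L[ℂ] E) (V' p.2 : E' →L[ℂ] E'), by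
    rw [Unitary.mem_iff, star_opMap, ← opMap_mul, ← opMap_mul]
    simp [opMap_one]⟩
  map_one' := Subtype.ext (by simp [opMap_one])
  map_mul' p q := Subtype.ext (by simp [opMap_mul])

theorem coe_tensorV {K' : Type} [Group K'] (V : K →* unitary (E →L[ℂ] E))
    (V' : K' →* unitary (E' →L[ℂ] E')) (p : K × K') :
    (tensorV V V' p : HilbertTensor E E' →L[ℂ] HilbertTensor E E') =
      opMap (V p.1 : E →L[ℂ] E) (V' p.2 : E' →L[ℂ] E') := rfl

variable {s s'} in
theorem tensorV_conj {K' : Type} [Group K'] {χ : K → G → Circle} {V : K →* unitary (E →L[ℂ] E)}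
    (hV : ∀ k g, (V k : E →L[ℂ] E) * s.u g * star (V k : E →L[ℂ] E) = (χ k g : ℂ) • s.u g)
    {χ' : K' → G' → Circle} {V' : K' →* unitary (E' →L[ℂ] E')}
    (hV' : ∀ k g, (V' k : E' →L[ℂ] E') * s'.u g * star (V' k : E' →L[ℂ] E') =
      (χ' k g : ℂ) • s'.u g) (k : K × K') (p : G × G') :
    (tensorV V V' k : HilbertTensor E E' →L[ℂ] HilbertTensor E E') * (s.tensor s').u p *
      star (tensorV V V' k : HilbertTensor E E' →L[ℂ] HilbertTensor E E') =
      ((χ k.1 p.1 * χ' k.2 p.2 : Circle) : ℂ) • (s.tensor s').u p := by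
  rw [coe_tensorV, tensor_u, star_opMap, ← opMap_mul, ← opMap_mul, hV, hV', opMap_smul_left,
    opMap_smul_right, smul_smul, Circle.coe_mul]

variable {s s'} in
theorem isTensorProductAction {K' : Type} [Group K'] {χ : K → G → Circle}
    {V : K →* unitary (E →L[ℂ] E)}
    (hV : ∀ k g, (V k : E →L[ℂ] E) * s.u g * star (V k : E →L[ℂ] E) = (χ k g : ℂ) • s.u g)
    {χ' : K' → G' → Circle} {V' : K' →* unitary (E' →L[ℂ] E')}
    (hV' : ∀ k g, (V' k : E' →L[ℂ] E') * s'.u g * star (V' k : E' →L[ℂ] E') =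
      (χ' k g : ℂ) • s'.u g) :
    IsTensorProductAction (s.iHom s') (s.jHom s') (s.action χ V hV) (s'.action χ' V' hV')
      ((s.tensor s').action (fun k p => χ k.1 p.1 * χ' k.2 p.2) (tensorV V V')
        (tensorV_conj hV hV')) := by
  intro k k' a b
  refine Subtype.ext ?_
  rw [coe_action, coe_iHom_mul_jHom, coe_iHom_mul_jHom, coe_action, coe_action, coe_tensorV,
    star_opMap, ← opMap_mul, ← opMap_mul]

end TwSys

end Pool.Agent.Work.MP_7f0ddb_an.H59
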