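import Mathlib

/-!
# Twisted group C*-algebras of abelian groups

A regular representation of an abelian group `G` twisted by a bicharacter: unitaries `u g` with
`u g * u h = ω g h • u (g * h)` and a cyclic trace vector `ξ`.
-/

open scoped InnerProductSpace

namespace Pool.Agent.Work.MP_7f0ddb_an.H59

/-- A twisted regular representation of an abelian group `G` on a Hilbert space `E`. -/
structure TwSys (G : Type) [CommGroup G] (E : Type) [NormedAddCommGroup E]
    [InnerProductSpace ℂ E] [CompleteSpace E] where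
  ω : G →* G →* Circle
  u : G → E →L[ℂ] E
  star_u_mul : ∀ g, star (u g) * u g = 1
  u_mul : ∀ g h, u g * u h = (ω g h : ℂ) • u (g * h)
  ξ : E
  norm_ξ : ‖ξ‖ = 1
  inner_ξ : ∀ g, g ≠ 1 → ⟪ξ, u g ξ⟫_ℂ = 0
  dense : Dense (Submodule.span ℂ (Set.range fun g => u g ξ) : Set E)

namespace TwSys

variable {G : Type} [CommGroup G] {E : Type} [NormedAddCommGroup E]
    [InnerProductSpace ℂ E] [CompleteSpace E] (s : TwSys G E)

theorem u_one : s.u 1 = 1 := by
  have h := s.u_mul 1 1
  have h1 : ((s.ω 1 1 : Circle) : ℂ) = 1 := by simp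
  rw [h1, one_smul, mul_one] at h
  calc s.u 1 = star (s.u 1) * s.u 1 * s.u 1 := by rw [s.star_u_mul, one_mul]
    _ = 1 := by rw [mul_assoc, h, s.star_u_mul]

theorem star_u (g : G) : star (s.u g) = (s.ω g g : ℂ) • s.u g⁻¹ := by
  have h := s.u_mul g g⁻¹
  rw [mul_inv_cancel, s.u_one, map_inv] at h
  calc star (s.u g) = star (s.u g) * ((s.ω g g : ℂ) • (s.u g * s.u g⁻¹)) := by
        rw [h, smul_smul, ← Circle.coe_mul, mul_inv_cancel, Circle.coe_one, one_smul, mul_one]
    _ = _ := by rw [mul_smul_comm, ← mul_assoc, s.star_u_mul, one_mul]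

theorem u_mul_star (g : G) : s.u g * star (s.u g) = 1 := by
  rw [s.star_u, mul_smul_comm, s.u_mul, mul_inv_cancel, s.u_one, map_inv, smul_smul,
    ← Circle.coe_mul, mul_inv_cancel, Circle.coe_one, one_smul]

theorem norm_u_apply (g : G) (x : E) : ‖s.u g x‖ = ‖x‖ := by
  have h : ⟪s.u g x, s.u g x⟫_ℂ = ⟪x, x⟫_ℂ := by
    rw [← ContinuousLinearMap.adjoint_inner_left, ← ContinuousLinearMap.star_eq_adjoint,
      ← mul_apply_eq_comp, s.star_u_mul]
    rfl
  rw [inner_self_eq_norm_sq_to_K, inner_self_eq_norm_sq_to_K] at h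
  have h2 : ‖s.u g x‖ ^ 2 = ‖x‖ ^ 2 := by exact_mod_cast h
  exact (sq_eq_sq₀ (norm_nonneg _) (norm_nonneg _)).1 h2

/-- The linear span of the unitaries `u g`, as a unital *-algebra of operators. -/
noncomputable def pre : StarSubalgebra ℂ (E →L[ℂ] E) where
  carrier := Submodule.span ℂ (Set.range s.u)
  mul_mem' {a b} ha hb := by
    induction ha using Submodule.span_induction with
    | mem a ha =>
      obtain ⟨g, rfl⟩ := ha
      induction hb using Submodule.span_induction with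
      | mem b hb =>
        obtain ⟨h, rfl⟩ := hb
        rw [s.u_mul]
        exact Submodule.smul_mem _ _ (Submodule.subset_span ⟨_, rfl⟩)
      | zero => rw [mul_zero]; exact Submodule.zero_mem _
      | add x y _ _ hx hy => rw [mul_add]; exact Submodule.add_mem _ hx hy
      | smul c x _ hx => rw [mul_smul_comm]; exact Submodule.smul_mem _ _ hx
    | zero => rw [zero_mul]; exact Submodule.zero_mem _
    | add x y _ _ hx hy => rw [add_mul]; exact Submodule.add_mem _ hx hy
    | smul c x _ hx => rw [smul_mul_assoc]; exact Submodule.smul_mem _ _ hx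
  add_mem' ha hb := Submodule.add_mem _ ha hb
  algebraMap_mem' c := by
    rw [Algebra.algebraMap_eq_smul_one, ← s.u_one]
    exact Submodule.smul_mem _ _ (Submodule.subset_span ⟨_, rfl⟩)
  star_mem' {a} ha := by
    induction ha using Submodule.span_induction with
    | mem a ha =>
      obtain ⟨g, rfl⟩ := ha
      rw [s.star_u]
      exact Submodule.smul_mem _ _ (Submodule.subset_span ⟨_, rfl⟩)
    | zero => rw [star_zero]; exact Submodule.zero_mem _
    | add x y _ _ hx hy => rw [star_add]; exact Submodule.add_mem _ hx hy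
    | smul c x _ hx => rw [star_smul]; exact Submodule.smul_mem _ _ hx

theorem mem_pre {a : E →L[ℂ] E} : a ∈ s.pre ↔ a ∈ Submodule.span ℂ (Set.range s.u) := Iff.rfl

theorem u_mem_pre (g : G) : s.u g ∈ s.pre := Submodule.subset_span ⟨g, rfl⟩

/-- The twisted group C*-algebra. -/
noncomputable def alg : StarSubalgebra ℂ (E →L[ℂ] E) := s.pre.topologicalClosure

theorem isClosed_alg : IsClosed (s.alg : Set (E →L[ℂ] E)) :=
  s.pre.isClosed_topologicalClosure

instance : IsClosed (s.alg : Set (E →L[ℂ] E)) := s.isClosed_alg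

theorem mem_alg {a : E →L[ℂ] E} :
    a ∈ s.alg ↔ a ∈ closure (Submodule.span ℂ (Set.range s.u) : Set (E →L[ℂ] E)) := Iff.rfl

theorem pre_le_alg : s.pre ≤ s.alg := s.pre.le_topologicalClosure

theorem u_mem (g : G) : s.u g ∈ s.alg := s.pre_le_alg (s.u_mem_pre g)

/-- An induction principle for `alg`. -/
theorem alg_induction {p : (E →L[ℂ] E) → Prop} (hc : IsClosed {a | p a}) (h0 : p 0)
    (hadd : ∀ a b, p a → p b → p (a + b)) (hsmul : ∀ (c : ℂ) a, p a → p (c • a))
    (hu : ∀ g, p (s.u g)) {a : E →L[ℂ] E} (ha : a ∈ s.alg) : p a := by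
  rw [s.mem_alg] at ha
  refine closure_minimal (s := (Submodule.span ℂ (Set.range s.u) : Set (E →L[ℂ] E)))
    (fun b hb => ?_) hc ha
  change p b
  induction hb using Submodule.span_induction with
  | mem b hb => obtain ⟨g, rfl⟩ := hb; exact hu g
  | zero => exact h0
  | add x y _ _ hx hy => exact hadd _ _ hx hy
  | smul c x _ hx => exact hsmul _ _ hx

/-- The trace. -/
noncomputable def τ (a : E →L[ℂ] E) : ℂ := ⟪s.ξ, a s.ξ⟫_ℂ

theorem τ_add (a b : E →L[ℂ] E) : s.τ (a + b) = s.τ a + s.τ b := by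
  simp [τ]

theorem τ_zero : s.τ 0 = 0 := by simp [τ]

theorem τ_smul (c : ℂ) (a : E →L[ℂ] E) : s.τ (c • a) = c * s.τ a := by
  simp [τ]

theorem τ_one : s.τ 1 = 1 := by
  rw [τ, one_apply_eq_self, inner_self_eq_norm_sq_to_K, s.norm_ξ]
  norm_num

theorem τ_u {g : G} (hg : g ≠ 1) : s.τ (s.u g) = 0 := s.inner_ξ g hg

theorem continuous_τ : Continuous s.τ := by unfold τ; fun_prop

theorem norm_τ_le (a : E →L[ℂ] E) : ‖s.τ a‖ ≤ ‖a‖ := by
  calc ‖s.τ a‖ ≤ ‖s.ξ‖ * ‖a s.ξ‖ := norm_inner_le_norm _ _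
    _ ≤ ‖s.ξ‖ * (‖a‖ * ‖s.ξ‖) := by gcongr; exact a.le_opNorm _
    _ = ‖a‖ := by rw [s.norm_ξ]; ring

theorem τ_star_mul_self (a : E →L[ℂ] E) : s.τ (star a * a) = ((‖a s.ξ‖ ^ 2 : ℝ) : ℂ) := by
  rw [τ, mul_apply_eq_comp, ContinuousLinearMap.star_eq_adjoint,
    ContinuousLinearMap.adjoint_inner_right, inner_self_eq_norm_sq_to_K]
  norm_cast

theorem τ_u_mul_u (g h : G) : s.τ (s.u g * s.u h) = s.τ (s.u h * s.u g) := by
  rw [s.u_mul, s.u_mul, τ_smul, τ_smul, mul_comm h g]
  by_cases hgh : g * h = 1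
  · have : h = g⁻¹ := eq_inv_of_mul_eq_one_right hgh
    subst this
    congr 2
    rw [map_inv, map_inv, MonoidHom.inv_apply]
  · rw [s.τ_u hgh, mul_zero, mul_zero]

theorem τ_mul_comm {a b : E →L[ℂ] E} (ha : a ∈ s.alg) (hb : b ∈ s.alg) :
    s.τ (a * b) = s.τ (b * a) := by
  refine s.alg_induction (p := fun a => s.τ (a * b) = s.τ (b * a))
    (isClosed_eq (s.continuous_τ.comp (by fun_prop)) (s.continuous_τ.comp (by fun_prop)))
    (by simp) (fun a a' h h' => by rw [add_mul, mul_add, τ_add, τ_add, h, h'])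
    (fun c a h => by rw [smul_mul_assoc, mul_smul_comm, τ_smul, τ_smul, h]) (fun g => ?_) ha
  refine s.alg_induction (p := fun b => s.τ (s.u g * b) = s.τ (b * s.u g))
    (isClosed_eq (s.continuous_τ.comp (by fun_prop)) (s.continuous_τ.comp (by fun_prop)))
    (by simp) (fun a a' h h' => by rw [add_mul, mul_add, τ_add, τ_add, h, h'])
    (fun c a h => by rw [smul_mul_assoc, mul_smul_comm, τ_smul, τ_smul, h]) (fun h => ?_) hb
  exact s.τ_u_mul_u g h

/-- The trace vector is separating. -/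
theorem eq_zero_of_apply_ξ {a : E →L[ℂ] E} (ha : a ∈ s.alg) (h : a s.ξ = 0) : a = 0 := by
  have key : ∀ g, a (s.u g s.ξ) = 0 := by
    intro g
    have h1 : s.τ (star (a * s.u g) * (a * s.u g)) = s.τ (star a * a) := by
      rw [star_mul, mul_assoc, s.τ_mul_comm (star_mem (s.u_mem g))
        (mul_mem (star_mem ha) (mul_mem ha (s.u_mem g))), mul_assoc, mul_assoc, s.u_mul_star,
        mul_one]
    rw [τ_star_mul_self, τ_star_mul_self, h] at h1
    have h2 : ‖a (s.u g s.ξ)‖ ^ 2 = 0 := by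
      have := Complex.ofReal_injective h1
      rw [mul_apply_eq_comp] at this
      simpa using this
    exact norm_eq_zero.1 (pow_eq_zero_iff (two_ne_zero)|>.1 h2)
  have hdense := s.dense
  ext x
  refine hdense.induction (P := fun x => a x = (0 : E →L[ℂ] E) x) (fun y hy => ?_)
    (isClosed_eq a.continuous (0 : E →L[ℂ] E).continuous) x
  induction hy using Submodule.span_induction with
  | mem y hy => obtain ⟨g, rfl⟩ := hy; exact key g
  | zero => simp
  | add x y _ _ hx hy => rw [map_add, map_add, hx, hy]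
  | smul c x _ hx => rw [map_smul, map_smul, hx]

theorem τ_star_mul_self_ne_zero {a : E →L[ℂ] E} (ha : a ∈ s.alg) (h : a ≠ 0) :
    0 < ‖a s.ξ‖ ^ 2 := by
  have : a s.ξ ≠ 0 := fun h' => h (s.eq_zero_of_apply_ξ ha h')
  positivity

end TwSys

end Pool.Agent.Work.MP_7f0ddb_an.H59
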